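import Pool.Agent.H21.GC.FourBox

/-!
# [H61 GQ ADMBOX] Boxes all of whose transversals are bad, for admissible tuples
-/

namespace Pool.Agent.H61.GQ

open Finset Pool.Agent.H21.GC

open Classical in
theorem adm_box (k : ℕ) (hk : 1 ≤ k) (ε : ℝ) (hε : 0 < ε) (s : ℕ) (hs : 1 ≤ s) :
    ∃ δ : ℝ, 0 < δ ∧ ∃ T₀ : ℕ, ∀ T : ℕ, T₀ ≤ T → ∀ R : Set (Fin k → ℕ),
      (∀ a ∈ R, ∀ p : ℕ, p.Prime → ∃ r : ℕ, ∀ i, ¬ p ∣ r + a i) →
      ε * (T : ℝ) ^ k ≤ (((Fintype.piFinset fun _ : Fin k => Icc 1 T).filter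
        (fun n => n ∈ R)).card : ℝ) →
      δ * (T : ℝ) ^ (k * s) ≤ ((univ.filter (fun V : Fin k → Fin s → Fin (T + 1) =>
        (∀ i j i' j', V i j = V i' j' → i = i' ∧ j = j') ∧
        (∀ p : ℕ, p.Prime → ∃ t : ℕ, ∀ i j, ¬ p ∣ t + (V i j : ℕ)) ∧
        ∀ φ : Fin k → Fin s, (fun i => (V i (φ i) : ℕ)) ∈ R)).card : ℝ) := by
  obtain ⟨L, hL⟩ : ∃ L, L = (k * s).factorial := ⟨_, rfl⟩
  have hL0 : 0 < L := by rw [hL]; exact Nat.factorial_pos _
  have hLr : (0 : ℝ) < L := by exact_mod_cast hL0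
  obtain ⟨c', hc'⟩ : ∃ c', c' = ε / (2 ^ k * (L : ℝ) ^ k) := ⟨_, rfl⟩
  have hc'0 : 0 < c' := by rw [hc']; positivity
  obtain ⟨κ, hκ⟩ : ∃ κ, κ = c' ^ (s ^ k) := ⟨_, rfl⟩
  have hκ0 : 0 < κ := by rw [hκ]; positivity
  obtain ⟨T₂, hT₂⟩ := exists_nat_gt (2 * ((k : ℝ) * s) ^ 2 / κ)
  refine ⟨κ / 2, by positivity, T₂ + 1, fun T hT R hadm hR0 => ?_⟩
  have hT1 : 1 ≤ T := by omega
  have hT0 : (1 : ℝ) ≤ T := by exact_mod_cast hT1
  -- the relation
  obtain ⟨R', hR'⟩ : ∃ R' : (Fin k → Fin (T + 1)) → Prop, R' = fun v =>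
      (fun i => (v i : ℕ)) ∈ R := ⟨_, rfl⟩
  have h5 : ε * (T : ℝ) ^ k ≤ ((univ.filter R').card : ℝ) := by
    refine hR0.trans ?_
    have h6 : ((Fintype.piFinset fun _ : Fin k => Icc 1 T).filter (fun n => n ∈ R)) ⊆
        (univ.filter R').image (fun v i => (v i : ℕ)) := by
      intro n hn
      rw [mem_filter, Fintype.mem_piFinset] at hn
      rw [mem_image]
      refine ⟨fun i => ⟨n i, by have := mem_Icc.1 (hn.1 i); omega⟩, ?_, rfl⟩
      rw [mem_filter, hR']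
      exact ⟨mem_univ _, hn.2⟩
    exact_mod_cast (card_le_card h6).trans card_image_le
  -- the residues
  obtain ⟨ρ, -, hρ⟩ := exists_le_card_fiber_of_nsmul_le_card_of_maps_to
    (s := univ.filter R') (t := (univ : Finset (Fin k → Fin L)))
    (f := fun v i => (⟨(v i : ℕ) % L, Nat.mod_lt _ hL0⟩ : Fin L))
    (b := ε * (T : ℝ) ^ k / (L : ℝ) ^ k) (fun _ _ => mem_univ _)
    ⟨fun _ => ⟨0, hL0⟩, mem_univ _⟩ (by
      rw [card_univ, Fintype.card_fun, Fintype.card_fin, Fintype.card_fin, nsmul_eq_mul,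
        Nat.cast_pow, mul_div_cancel₀ _ (by positivity)]
      exact h5)
  rw [filter_filter] at hρ
  obtain ⟨Q, hQ⟩ : ∃ Q : (Fin k → Fin (T + 1)) → Prop, Q = fun v =>
      R' v ∧ (fun i => (⟨(v i : ℕ) % L, Nat.mod_lt _ hL0⟩ : Fin L)) = ρ := ⟨_, rfl⟩
  have hX : (Fintype.card (Fin (T + 1)) : ℝ) = T + 1 := by
    rw [Fintype.card_fin]
    push_cast
    ring
  have h6 := box_count k s Q c' hc'0.le (by
    rw [hQ]
    refine le_trans ?_ (hρ.trans (card_imp fun v hv => hv))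
    rw [hX, hc']
    have h7 : ((T : ℝ) + 1) ^ k ≤ (2 * (T : ℝ)) ^ k :=
      pow_le_pow_left₀ (by positivity) (by linarith) k
    have h8 := mul_le_mul_of_nonneg_left h7 (show (0 : ℝ) ≤ ε / (2 ^ k * (L : ℝ) ^ k) by positivity)
    refine h8.trans (le_of_eq ?_)
    rw [mul_pow]
    field_simp)
  rw [← hκ] at h6
  have h7 := inj_part k s (T + 1) (fun V => ∀ φ : Fin k → Fin s, Q fun i => V i (φ i)) κ
    (by omega) (by
      have h8 : (T₂ : ℝ) ≤ ((T + 1 : ℕ) : ℝ) := by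
        have : T₂ ≤ T + 1 := by omega
        exact_mod_cast this
      rw [div_lt_iff₀ hκ0] at hT₂
      have h9 := mul_le_mul_of_nonneg_left h8 hκ0.le
      linarith) (by
      rw [Fintype.card_fin] at h6
      exact h6.trans (card_imp fun v hv => hv))
  have h8 : κ / 2 * (T : ℝ) ^ (k * s) ≤ κ / 2 * (((T + 1 : ℕ) : ℝ)) ^ (k * s) := by
    refine mul_le_mul_of_nonneg_left (pow_le_pow_left₀ (by linarith) ?_ _) (by positivity)
    push_cast
    linarith
  refine h8.trans (h7.trans (card_imp ?_))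
  intro V hV
  obtain ⟨hV1, hV2⟩ := hV
  have hres : ∀ i j, (V i j : ℕ) % L = (ρ i : ℕ) := by
    intro i j
    have h1 := hV2 (fun _ => j)
    rw [hQ] at h1
    exact congrArg Fin.val (congrFun h1.2 i)
  refine ⟨hV1, ?_, fun φ => ?_⟩
  · intro p hp
    by_cases hps : p ≤ k * s
    · -- the residue of a transversal
      have h0 := hV2 (fun _ => ⟨0, hs⟩)
      rw [hQ, hR'] at h0
      obtain ⟨r, hr⟩ := hadm _ h0.1 p hp
      have hdvd : p ∣ L := by
        rw [hL]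
        exact (Nat.Prime.dvd_factorial hp).2 hps
      refine ⟨r, fun i j hd => hr i ?_⟩
      have e1 : (V i j : ℕ) ≡ V i ⟨0, hs⟩ [MOD L] := by
        unfold Nat.ModEq
        rw [hres, hres]
      have e2 : r + (V i j : ℕ) ≡ r + V i ⟨0, hs⟩ [MOD p] := (e1.of_dvd hdvd).add_left r
      exact (Nat.ModEq.dvd_iff e2 dvd_rfl).1 hd
    · rw [not_le] at hps
      obtain ⟨S, hS⟩ : ∃ S : Finset ℕ, S = univ.image (fun q : Fin k × Fin s => (V q.1 q.2 : ℕ) % p) :=
        ⟨_, rfl⟩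
      have h1 : S.card < p := by
        rw [hS]
        refine lt_of_le_of_lt card_image_le ?_
        rw [card_univ, Fintype.card_prod, Fintype.card_fin, Fintype.card_fin]
        exact hps
      obtain ⟨t, ht, ht'⟩ : ∃ t ∈ range p, t ∉ S := by
        by_contra hcon'
        push Not at hcon'
        have := card_le_card (fun t ht => hcon' t ht : range p ⊆ S)
        rw [card_range] at this
        omega
      rw [mem_range] at ht
      refine ⟨p - t, fun i j hq => ht' ?_⟩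
      rw [hS, mem_image]
      refine ⟨(i, j), mem_univ _, ?_⟩
      have h3 : (p - t + (V i j : ℕ)) + t ≡ 0 + t [MOD p] :=
        Nat.ModEq.add_right t ((Nat.modEq_zero_iff_dvd).2 hq)
      have h4 : (p - t + (V i j : ℕ)) + t = V i j + p := by omega
      rw [h4, zero_add] at h3
      have h5 : (V i j : ℕ) + p ≡ V i j [MOD p] := Nat.add_mod_right _ _
      have h6 : (V i j : ℕ) % p = t % p := h5.symm.trans h3
      simp only
      rw [h6, Nat.mod_eq_of_lt ht]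
  · have h1 := hV2 φ
    rw [hQ, hR'] at h1
    exact h1.1

end Pool.Agent.H61.GQ
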