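import Pool.Agent.H61.GQ.AdmBox
import Pool.Agent.H92.UM.Mbq
import Pool.Agent.H61.GD.Two

/-!
# [H61 GQ FIN] MP_8923e7_nt, AlmostAllTuples: assembly

Almost all admissible `k`-tuples at every scale `L ≤ (log X)^A`: all `N + a j` almost prime (`Q2`), at least `13k/(50r)` of them
primes of one colour, exact pattern, with the right order of magnitude.
-/

namespace Pool.Agent.H61.GQ

open Finset Filter Pool.Agent.H61.UN Pool.Agent.H61.UL Pool.Agent.H92.MM Pool.Agent.H92.UM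
  Pool.Agent.H61.GD

open Pool.Agent.H21.CP (Q2 Q2_prime)

open Classical in
/-- number of `N ≤ X` with all `N + a j` almost prime and `{j : N + a j is a prime of colour i} = E` -/
noncomputable def cnt {k r : ℕ} (col : ℕ → Fin r) (i : Fin r) (E : Finset (Fin k)) (a : Fin k → ℕ)
    (X : ℕ) : ℕ :=
  ((Icc 1 X).filter (fun N => (∀ j, Q2 (N + a j)) ∧
    ∀ j, ((N + a j).Prime ∧ col (N + a j) = i) ↔ j ∈ E)).card

/-- almost primes are rough -/
theorem rgh_of_q2 {x a : ℝ} (hx : 1 ≤ x) (ha1 : a ≤ 1 / 20) {N y : ℕ} (hN : N ∈ Tx x)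
    (h : Q2 (N + y)) : Rgh (x ^ a) (N + y) := by
  intro p hp hpn
  have h1 : N + y < p ^ 8 := h.2.2 p hp hpn
  rw [Tx, mem_Ioc] at hN
  have h2 : Real.sqrt x < (N : ℝ) := Nat.lt_of_floor_lt hN.1
  have h3 : ((N + y : ℕ) : ℝ) < (p : ℝ) ^ 8 := by exact_mod_cast h1
  have h4 : Real.sqrt x ≤ (p : ℝ) ^ 8 := by
    push_cast at h3
    have : (0 : ℝ) ≤ y := Nat.cast_nonneg _
    linarith
  have hx0 : 0 ≤ x := by linarith
  have h5 : (x ^ a) ^ 8 ≤ Real.sqrt x := by
    rw [Real.sqrt_eq_rpow, ← Real.rpow_natCast, ← Real.rpow_mul hx0]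
    apply Real.rpow_le_rpow_of_exponent_le hx
    push_cast
    linarith
  exact le_of_pow_le_pow_left₀ (by norm_num) (Nat.cast_nonneg p) (h5.trans h4)

open Classical in
theorem aat (k' r : ℕ) (hr : 1 ≤ r) (ε : ℝ) (hε : 0 < ε) : ∃ K : ℕ, ∀ A : ℝ, 0 < A →
    ∃ (c : ℝ) (L0 X0 : ℕ), 0 < c ∧ ∀ X : ℕ, X0 ≤ X → ∀ L : ℕ, L0 ≤ L → (L : ℝ) ≤ Real.log X ^ A →
      ∀ col : ℕ → Fin r,
      (((Fintype.piFinset fun _ : Fin (k' + 1) => Icc 1 L).filter (fun a => Admv a ∧
        ¬ ∃ (i : Fin r) (E : Finset (Fin (k' + 1))), 13 * (k' + 1) ≤ 50 * r * E.card ∧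
          c * (min 1 ((L : ℝ) / Real.log X)) ^ K * (X / Real.log X ^ (k' + 1)) ≤
            (cnt col i E a X : ℝ))).card : ℝ) ≤ ε * (L : ℝ) ^ (k' + 1) := by
  obtain ⟨k, hk⟩ : ∃ k, k = k' + 1 := ⟨_, rfl⟩
  have hk1 : 1 ≤ k := by omega
  have hkr : (1 : ℝ) ≤ k := by exact_mod_cast hk1
  have hrr : (1 : ℝ) ≤ r := by exact_mod_cast hr
  obtain ⟨e, he⟩ : ∃ e : ℝ, e = 1 / (200 * k) := ⟨_, rfl⟩
  have he0 : 0 < e := by
    rw [he]
    positivity
  have hek : e * k = 1 / 200 := by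
    rw [he]
    field_simp
  have he1 : e ≤ 1 / 100 := by nlinarith
  obtain ⟨s, a, hs, ha, ha1, hmain⟩ := main_BQ2 e he0 he1 k k' (by omega)
  refine ⟨k * s - (k' + 1), fun A hA => ?_⟩
  obtain ⟨δ, hδ, T0, hbox⟩ := adm_box k hk1 ε hε s hs
  obtain ⟨c1, T1, hc1, hT1, hev⟩ := hmain (A + 1) δ (by linarith) hδ
  have hx : Tendsto (fun X : ℕ => (X : ℝ) / (2 * T1)) atTop atTop :=
    (tendsto_natCast_atTop_atTop).atTop_div_const (by positivity)
  have hev1 := hx.eventually (hev.and (eventually_ge_atTop (1 : ℝ)))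
  have hev2 := (tendsto_natCast_atTop_atTop (R := ℝ)).eventually (ev_two A T1 hA hT1 1)
  obtain ⟨X0, hX0⟩ := eventually_atTop.1 (hev1.and hev2)
  refine ⟨c1 / (4 * T1 * (r * 2 ^ k)), T0 + 1, max X0 1, by positivity,
    fun X hX L hL hLA col => ?_⟩
  obtain ⟨⟨hE1, hx1⟩, hE2⟩ := hX0 X ((le_max_left _ _).trans hX)
  have hXpos : (0 : ℝ) < X := by
    have : 1 ≤ X := (le_max_right _ _).trans hX
    exact_mod_cast this
  obtain ⟨hq1, hq2, hq3, hq4, hq5⟩ := hE2 L (Nat.cast_nonneg _) hLA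
  obtain ⟨x, hxd⟩ : ∃ x : ℝ, x = (X : ℝ) / (2 * T1) := ⟨_, rfl⟩
  rw [← hxd] at hE1 hx1 hq1 hq2 hq3 hq4
  by_contra hcon
  rw [not_le] at hcon
  obtain ⟨thr, hthr⟩ : ∃ thr : ℝ, thr = c1 / (4 * T1 * (r * 2 ^ k)) *
    (min 1 ((L : ℝ) / Real.log X)) ^ (k * s - (k' + 1)) * (X / Real.log X ^ (k' + 1)) := ⟨_, rfl⟩
  rw [← hthr] at hcon
  have hL1 : 1 ≤ L := by omega
  subst hk
  obtain ⟨R, hR⟩ : ∃ R : Set (Fin (k' + 1) → ℕ), R = {a | a ∈ (Fintype.piFinset fun _ :
        Fin (k' + 1) => Icc 1 L) ∧ Admv a ∧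
        ¬ ∃ (i : Fin r) (E : Finset (Fin (k' + 1))), 13 * (k' + 1) ≤ 50 * r * E.card ∧
          thr ≤ (cnt col i E a X : ℝ)} := ⟨_, rfl⟩
  have hB2 := hbox L (by omega) R (by
    intro a ha
    rw [hR] at ha
    exact ha.2.1) (by
    refine hcon.le.trans (le_of_eq ?_)
    congr 1
    congr 1
    ext n
    rw [mem_filter, mem_filter, hR]
    exact ⟨fun h => ⟨h.1, h.1, h.2⟩, fun h => ⟨h.1, h.2.2⟩⟩)
  obtain ⟨VV, hVV⟩ : ∃ VV : Finset (Fin (k' + 1) → Fin s → Fin (L + 1)), VV =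
      univ.filter (fun V : Fin (k' + 1) → Fin s → Fin (L + 1) =>
        (∀ i j i' j', V i j = V i' j' → i = i' ∧ j = j') ∧
        (∀ p : ℕ, p.Prime → ∃ t : ℕ, ∀ i j, ¬ p ∣ t + (V i j : ℕ)) ∧
        ∀ φ : Fin (k' + 1) → Fin s, (fun i => (V i (φ i) : ℕ)) ∈ R) := ⟨_, rfl⟩
  rw [← hVV] at hB2
  obtain ⟨BB, hBB⟩ : ∃ BB : Finset (Fin (k' + 1) × Fin s → ℕ),
      BB = VV.image (fun V q => (V q.1 q.2 : ℕ)) := ⟨_, rfl⟩
  have hBBcard : BB.card = VV.card := by
    rw [hBB]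
    apply card_image_of_injective
    intro V V' h
    funext i j
    exact Fin.ext (congrFun h (i, j))
  obtain ⟨D, hD⟩ : ∃ D : Finset (Fin (k' + 1) → ℕ),
    D = (Fintype.piFinset fun _ : Fin (k' + 1) => Icc 1 L).filter (fun n => n ∈ R) := ⟨_, rfl⟩
  have hDcard : D.card ≤ L ^ (k' + 1) := by
    rw [hD]
    refine (card_filter_le _ _).trans ?_
    rw [Fintype.card_piFinset]
    simp
  have hdata : ∀ v ∈ BB, ∃ V ∈ VV, ∀ q, v q = (V q.1 q.2 : ℕ) := by
    intro v hv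
    rw [hBB, mem_image] at hv
    obtain ⟨V, hV, rfl⟩ := hv
    exact ⟨V, hV, fun q => rfl⟩
  obtain ⟨G, hG⟩ : ∃ G : ℕ → Finset (Fin (k' + 1) → ℕ), G = fun N =>
    D.filter (fun a => (∀ j, Q2 (N + a j)) ∧
      13 * (k' + 1) ≤ 50 * (univ.filter (fun j => (N + a j).Prime)).card) := ⟨_, rfl⟩
  have key := hE1 L hL1 (by
      refine le_trans ?_ hq1
      rw [one_mul]) BB (by
      intro v hv
      obtain ⟨V, hV, h⟩ := hdata v hv
      rw [hVV, mem_filter] at hV
      refine ⟨mem_IJ.2 ⟨fun q => ?_, fun q q' hqq => ?_⟩, fun p hp => ?_⟩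
      · rw [h]
        have := (V q.1 q.2).isLt
        omega
      · rw [h, h] at hqq
        have h2 := hV.2.1 _ _ _ _ (Fin.ext hqq)
        exact Prod.ext h2.1 h2.2
      · obtain ⟨t, ht⟩ := hV.2.2.1 p hp
        exact ⟨t, fun q => by rw [h]; exact ht q.1 q.2⟩) (by
      rw [hBBcard]
      exact hB2) G (by
      intro N hN b hb i
      rw [hG] at hb
      simp only at hb
      rw [mem_filter, hD, mem_filter, Fintype.mem_piFinset] at hb
      exact ⟨(mem_Icc.1 (hb.1.1 i)).2, rgh_of_q2 hx1 ha1 hN (hb.2.1 i)⟩) (by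
      intro v hv N _ hpc hq
      obtain ⟨V, hV, h⟩ := hdata v hv
      rw [hVV, mem_filter] at hV
      obtain ⟨φ, hφ⟩ : ∃ φ : Fin (k' + 1) → Fin s, ∀ j, Q2 (N + v (j, φ j)) ∧
          ((∃ l, (N + v (j, l)).Prime) → (N + v (j, φ j)).Prime) := by
        have : ∀ j : Fin (k' + 1), ∃ l : Fin s, Q2 (N + v (j, l)) ∧
            ((∃ l, (N + v (j, l)).Prime) → (N + v (j, l)).Prime) := by
          intro j
          by_cases hj : ∃ l, (N + v (j, l)).Prime
          · obtain ⟨l, hl⟩ := hj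
            exact ⟨l, Q2_prime _ hl, fun _ => hl⟩
          · obtain ⟨l, hl⟩ := hq j
            exact ⟨l, hl, fun h => absurd h hj⟩
        choose φ hφ using this
        exact ⟨φ, hφ⟩
      refine ⟨fun j => (j, φ j), fun i j hij => ?_, ?_⟩
      · simp only [Prod.mk.injEq] at hij
        exact hij.1
      · rw [hG]
        simp only
        have hRm := hV.2.2.2 φ
        have e1 : (v ∘ fun j => (j, φ j)) = fun i => (V i (φ i) : ℕ) := by
          funext i
          simp only [Function.comp, h]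
        rw [mem_filter]
        refine ⟨?_, fun j => (hφ j).1, ?_⟩
        · rw [hD, mem_filter, e1]
          refine ⟨?_, hRm⟩
          rw [hR] at hRm
          exact hRm.1
        · have h1 : pc v N ≤ (univ.filter (fun j : Fin (k' + 1) =>
              (N + (v ∘ fun j => (j, φ j)) j).Prime)).card := by
            unfold pc
            apply card_le_card
            intro j hj
            rw [mem_filter] at hj ⊢
            exact ⟨hj.1, (hφ j).2 hj.2⟩
          have h2 : 13 * (k' + 1) ≤ 50 * pc v N := by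
            by_contra hlt
            rw [not_le] at hlt
            have h3 : 50 * pc v N + 1 ≤ 13 * (k' + 1) := hlt
            have h4 : (50 * (pc v N : ℝ) + 1) ≤ 13 * ((k' + 1 : ℕ) : ℝ) := by
              exact_mod_cast h3
            have h5 : (13 / 50 - 2 * e) * ((k' + 1 : ℕ) : ℝ) =
              13 / 50 * ((k' + 1 : ℕ) : ℝ) - 2 * (e * ((k' + 1 : ℕ) : ℝ)) := by ring
            rw [h5, hek] at hpc
            linarith
          exact h2.trans (Nat.mul_le_mul_left _ h1))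
  -- upper bound
  have hlX : 0 < Real.log X := by linarith
  have hthr0 : 0 ≤ thr := by
    rw [hthr]
    have : 0 ≤ min 1 ((L : ℝ) / Real.log X) := le_min zero_le_one (by positivity)
    positivity
  have hTx0 : ∀ N ∈ (Tx x).filter (fun N : ℕ => (N : ℝ) ≤ T1 * x), N ∈ Icc 1 X := by
    intro N hN
    rw [mem_filter, Tx, mem_Ioc] at hN
    have h1 : T1 * x = X / 2 := by
      rw [hxd]
      have : T1 ≠ 0 := by positivity
      field_simp
    have h2 : (N : ℝ) ≤ X / 2 := by rw [← h1]; exact hN.2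
    have h4 : (N : ℝ) ≤ X := by linarith
    have h5 : N ≤ X := by exact_mod_cast h4
    rw [mem_Icc]
    omega
  have hone : ∀ b ∈ D, (((Icc 1 X).filter (fun N => (∀ j, Q2 (N + b j)) ∧
      13 * (k' + 1) ≤ 50 * (univ.filter (fun j => (N + b j).Prime)).card)).card : ℝ) ≤
        r * 2 ^ (k' + 1) * thr := by
    intro b hb
    rw [hD, mem_filter, hR] at hb
    have hbad := hb.2.2.2
    obtain ⟨PE, hPE⟩ : ∃ PE : Finset (Fin r × Finset (Fin (k' + 1))),
      PE = univ.filter (fun q => 13 * (k' + 1) ≤ 50 * r * q.2.card) := ⟨_, rfl⟩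
    have h1 : (Icc 1 X).filter (fun N => (∀ j, Q2 (N + b j)) ∧
        13 * (k' + 1) ≤ 50 * (univ.filter (fun j => (N + b j).Prime)).card) ⊆
        PE.biUnion (fun q => (Icc 1 X).filter (fun N => (∀ j, Q2 (N + b j)) ∧
          ∀ j, ((N + b j).Prime ∧ col (N + b j) = q.1) ↔ j ∈ q.2)) := by
      intro N hN
      rw [mem_filter] at hN
      obtain ⟨P, hP⟩ : ∃ P : Finset (Fin (k' + 1)), P = univ.filter (fun j => (N + b j).Prime) :=
        ⟨_, rfl⟩
      rw [← hP] at hN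
      obtain ⟨i0, hi0⟩ : ∃ i0 : Fin r, P.card ≤ r *
          (P.filter (fun j => col (N + b j) = i0)).card := by
        by_contra hcon'
        push Not at hcon'
        have h1 : P.card = ∑ i : Fin r, (P.filter (fun j => col (N + b j) = i)).card :=
          card_eq_sum_card_fiberwise (fun j _ => mem_coe.2 (mem_univ _))
        have h2 : ∑ i : Fin r, r * (P.filter (fun j => col (N + b j) = i)).card <
            ∑ _i : Fin r, P.card :=
          sum_lt_sum_of_nonempty ⟨⟨0, hr⟩, mem_univ _⟩ fun i _ => hcon' i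
        rw [← mul_sum, ← h1, sum_const, card_univ, Fintype.card_fin, smul_eq_mul] at h2
        exact lt_irrefl _ h2
      rw [mem_biUnion]
      refine ⟨(i0, P.filter (fun j => col (N + b j) = i0)), ?_, ?_⟩
      · rw [hPE, mem_filter]
        refine ⟨mem_univ _, hN.2.2.trans ?_⟩
        rw [mul_assoc]
        exact Nat.mul_le_mul_left _ hi0
      · rw [mem_filter]
        refine ⟨hN.1, hN.2.1, fun j => ?_⟩
        rw [mem_filter, hP, mem_filter]
        simp
    have h2 := (card_le_card h1).trans card_biUnion_le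
    have h3 : (((Icc 1 X).filter (fun N => (∀ j, Q2 (N + b j)) ∧
        13 * (k' + 1) ≤ 50 * (univ.filter (fun j => (N + b j).Prime)).card)).card : ℝ) ≤
        ∑ q ∈ PE, (cnt col q.1 q.2 b X : ℝ) := by
      have h4 : ((∑ q ∈ PE, ((Icc 1 X).filter (fun N => (∀ j, Q2 (N + b j)) ∧
          ∀ j, ((N + b j).Prime ∧ col (N + b j) = q.1) ↔ j ∈ q.2)).card : ℕ) : ℝ) =
          ∑ q ∈ PE, (cnt col q.1 q.2 b X : ℝ) := by
        rw [Nat.cast_sum]
        rfl
      rw [← h4]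
      exact_mod_cast h2
    refine h3.trans ?_
    calc ∑ q ∈ PE, (cnt col q.1 q.2 b X : ℝ) ≤ ∑ _q ∈ PE, thr := by
          apply sum_le_sum
          intro q hq
          rw [hPE, mem_filter] at hq
          by_contra hlt
          rw [not_le] at hlt
          exact hbad ⟨q.1, q.2, hq.2, hlt.le⟩
      _ = PE.card * thr := by rw [sum_const, nsmul_eq_mul]
      _ ≤ _ := by
          apply mul_le_mul_of_nonneg_right _ hthr0
          have h5 : PE.card ≤ r * 2 ^ (k' + 1) := by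
            rw [hPE]
            refine (card_filter_le _ _).trans (le_of_eq ?_)
            rw [card_univ, Fintype.card_prod, Fintype.card_fin, Fintype.card_finset,
              Fintype.card_fin]
          exact_mod_cast h5
  have hup2 : ∑ N ∈ (Tx x).filter (fun N : ℕ => (N : ℝ) ≤ T1 * x), ((G N).card : ℝ) ≤
      (L : ℝ) ^ (k' + 1) * (r * 2 ^ (k' + 1) * thr) := by
    have h1 : ∑ N ∈ (Tx x).filter (fun N : ℕ => (N : ℝ) ≤ T1 * x), (G N).card ≤
        ∑ N ∈ Icc 1 X, (G N).card :=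
      sum_le_sum_of_subset hTx0
    have h2 : ∑ N ∈ Icc 1 X, (G N).card = ∑ b ∈ D, ((Icc 1 X).filter (fun N =>
        (∀ j, Q2 (N + b j)) ∧
        13 * (k' + 1) ≤ 50 * (univ.filter (fun j => (N + b j).Prime)).card)).card := by
      rw [hG]
      simp only [card_filter]
      rw [sum_comm]
    calc ∑ N ∈ (Tx x).filter (fun N : ℕ => (N : ℝ) ≤ T1 * x), ((G N).card : ℝ)
        ≤ ((∑ N ∈ Icc 1 X, (G N).card : ℕ) : ℝ) := by
          rw [← Nat.cast_sum]
          exact_mod_cast h1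
      _ = ∑ b ∈ D, (((Icc 1 X).filter (fun N => (∀ j, Q2 (N + b j)) ∧
          13 * (k' + 1) ≤ 50 * (univ.filter (fun j => (N + b j).Prime)).card)).card : ℝ) := by
          rw [h2, Nat.cast_sum]
      _ ≤ ∑ _b ∈ D, (r * 2 ^ (k' + 1) * thr) := sum_le_sum hone
      _ = D.card * (r * 2 ^ (k' + 1) * thr) := by rw [sum_const, nsmul_eq_mul]
      _ ≤ _ := mul_le_mul_of_nonneg_right (by exact_mod_cast hDcard) (by positivity)
  have hkey2 := key.trans hup2
  have hLr : (1 : ℝ) ≤ L := by exact_mod_cast hL1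
  obtain ⟨M, hM⟩ : ∃ M : ℝ, M = (min 1 ((L : ℝ) / Real.log X)) ^ ((k' + 1) * s - (k' + 1)) :=
    ⟨_, rfl⟩
  have hM0 : 0 < M := by
    rw [hM]
    have : 0 < min 1 ((L : ℝ) / Real.log X) := lt_min one_pos (by positivity)
    positivity
  have hmono : (L : ℝ) / Real.log X ≤ L / Real.log x :=
    div_le_div_of_nonneg_left (by positivity) hq3 hq4
  have h1 : M ≤ (min 1 ((L : ℝ) / Real.log x)) ^ ((k' + 1) * s - (k' + 1)) := by
    rw [hM]
    apply pow_le_pow_left₀ (le_min zero_le_one (by positivity))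
    exact min_le_min le_rfl hmono
  have h2 : ((L : ℝ) / Real.log X) ^ (k' + 1) ≤ ((L : ℝ) / Real.log x) ^ (k' + 1) :=
    pow_le_pow_left₀ (by positivity) hmono _
  have h3 : c1 * x * ((L : ℝ) / Real.log X) ^ (k' + 1) * M ≤
      c1 * x * ((L : ℝ) / Real.log x) ^ (k' + 1) *
        (min 1 ((L : ℝ) / Real.log x)) ^ ((k' + 1) * s - (k' + 1)) := by
    apply mul_le_mul _ h1 hM0.le (by positivity)
    exact mul_le_mul_of_nonneg_left h2 (by positivity)
  have h4 := h3.trans hkey2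
  rw [hthr, ← hM, hxd] at h4
  have e2 : Real.log X ≠ 0 := hlX.ne'
  have e1 : T1 ≠ 0 := by positivity
  have hr0 : (r : ℝ) ≠ 0 := by positivity
  have h5 : c1 * ((X : ℝ) / (2 * T1)) * ((L : ℝ) / Real.log X) ^ (k' + 1) * M =
      2 * ((L : ℝ) ^ (k' + 1) * (r * 2 ^ (k' + 1) * (c1 / (4 * T1 * (r * 2 ^ (k' + 1))) * M *
        (X / Real.log X ^ (k' + 1))))) := by
    rw [div_pow]
    field_simp
    ring
  have h7 : 0 < (L : ℝ) ^ (k' + 1) * (r * 2 ^ (k' + 1) * (c1 / (4 * T1 * (r * 2 ^ (k' + 1))) * M *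
        (X / Real.log X ^ (k' + 1)))) := by positivity
  rw [h5] at h4
  linarith

end Pool.Agent.H61.GQ
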