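import Pool.Agent.H61.GQ.ObG

/-!
# [H61 GQ OBW] The event of the weights (MP_8923e7_nt, AlmostAllTuples with weights)

`S` a set of pairs (colour, set of cells) which carries no weights covering every cell with `(13/50 - η)/r`. Then with
probability at least `η/2` all the cells contain a number with property `Q` and for some colour `i` the pair
(`i`, set of the cells with a prime of colour `i`) is not in `S`.
-/

namespace Pool.Agent.H61.GQ

open Finset Filter Pool.Agent.H21.MT Pool.Agent.H92.MM Pool.Agent.H61.UL Pool.Agent.H61.UN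
  Pool.Agent.H92.UM

open Classical in
/-- the cells with a prime of colour `i` -/
noncomputable def ec {m s r : ℕ} (col : ℕ → Fin r) (v : Fin m × Fin s → ℕ) (N : ℕ) (i : Fin r) :
    Finset (Fin m) :=
  univ.filter (fun j => ∃ l : Fin s, (N + v (j, l)).Prime ∧ col (N + v (j, l)) = i)

open Classical in
/-- there are weights on `S` with sum at most one covering every index with weight at least `θ` -/
def Cov {r m : ℕ} (θ : ℝ) (S : Finset (Fin r × Finset (Fin m))) : Prop :=
  ∃ w : Fin r → Finset (Fin m) → ℝ, (∀ i E, 0 ≤ w i E) ∧ ∑ i, ∑ E, w i E ≤ 1 ∧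
    (∀ j, θ ≤ ∑ i, ∑ E ∈ univ.filter (fun E => j ∈ E), w i E) ∧ ∀ i E, 0 < w i E → (i, E) ∈ S

/-- the event -/
def EvW (Q : ℕ → Prop) {m s r : ℕ} (col : ℕ → Fin r) (S : Finset (Fin r × Finset (Fin m)))
    (v : Fin m × Fin s → ℕ) (N : ℕ) : Prop :=
  (∀ j : Fin m, ∃ l : Fin s, Q (N + v (j, l))) ∧ ∃ i : Fin r, (i, ec col v N i) ∉ S

open Classical in
/-- the mass of the `N` with a prime in cell `j` and all cells good -/
private theorem good_mass {k : ℕ} (T : Finset ℕ) (μ : ℕ → ℝ) (hμ : ∀ N, 0 ≤ μ N)
    (h1 : ∑ N ∈ T, μ N = 1)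
    (R A : Fin k → ℕ → Prop) (κ η : ℝ)
    (hR : ∀ j, κ - η ≤ ∑ N ∈ T.filter (R j), μ N)
    (hA : ∀ j, 1 - η ≤ ∑ N ∈ T.filter (A j), μ N) (j : Fin k) :
    κ - (k + 1) * η ≤ ∑ N ∈ (T.filter (fun N => ∀ i, A i N)).filter (R j), μ N := by
  have hbad : ∑ N ∈ T.filter (fun N => ¬ ∀ i, A i N), μ N ≤ k * η := by
    have h2 : ∀ N ∈ T, (if ¬ ∀ i, A i N then μ N else 0) ≤
        ∑ i : Fin k, if ¬ A i N then μ N else 0 := by
      intro N _
      have h0 : ∀ i : Fin k, 0 ≤ if ¬ A i N then μ N else 0 := by
        intro i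
        by_cases h8 : A i N
        · simp [h8]
        · simp [h8, hμ N]
      by_cases hN : ∀ i, A i N
      · rw [if_neg (not_not.2 hN)]
        exact sum_nonneg fun i _ => h0 i
      · rw [if_pos hN]
        push Not at hN
        obtain ⟨i, hi⟩ := hN
        have h7 := single_le_sum (f := fun i : Fin k => if ¬ A i N then μ N else 0)
          (fun i _ => h0 i) (mem_univ i)
        simp only [if_pos hi] at h7
        exact h7
    rw [sum_filter]
    refine (sum_le_sum h2).trans ?_
    rw [sum_comm]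
    calc ∑ i : Fin k, ∑ N ∈ T, (if ¬ A i N then μ N else 0) ≤ ∑ _i : Fin k, η := by
          refine sum_le_sum fun i _ => ?_
          rw [← sum_filter]
          have h3 := sum_filter_add_sum_filter_not T (A i) μ
          have h4 := hA i
          linarith
      _ = k * η := by
          rw [sum_const, card_univ, Fintype.card_fin, nsmul_eq_mul]
  have h5 : ∑ N ∈ T.filter (R j), μ N ≤
      ∑ N ∈ (T.filter (fun N => ∀ i, A i N)).filter (R j), μ N +
        ∑ N ∈ T.filter (fun N => ¬ ∀ i, A i N), μ N := by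
    rw [filter_filter, sum_filter, sum_filter, sum_filter, ← sum_add_distrib]
    refine sum_le_sum fun N _ => ?_
    have h0 := hμ N
    by_cases h6 : R j N <;> by_cases h7 : ∀ i, A i N <;> simp [h6, h7, h0]
  have h6 := hR j
  have h7 : ((k : ℝ) + 1) * η = k * η + η := by ring
  rw [h7]
  linarith

open Classical in
theorem evW_prob (Q : ℕ → Prop) {r m s : ℕ} (hr : 1 ≤ r) {η e x : ℝ} (hη : 0 < η)
    (he : ((m : ℝ) + 1) * e ≤ η / 2) (v : Fin m × Fin s → ℕ) (col : ℕ → Fin r)
    (S : Finset (Fin r × Finset (Fin m))) (hno : ¬ Cov ((13 / 50 - η) / r) S) :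
    EvProb Q e x v (EvW Q col S v) (η / 2) := by
  intro μ h0 h1 h2 h3
  have hr' : (0 : ℝ) < r := by exact_mod_cast hr
  have hr1 : (1 : ℝ) ≤ r := by exact_mod_cast hr
  obtain ⟨T', hT'⟩ : ∃ T' : Finset ℕ, T' = (Tx x).filter (fun N => ∀ j, ∃ l : Fin s, Q (N + v (j, l))) :=
    ⟨_, rfl⟩
  obtain ⟨bad, hbad⟩ : ∃ bad : Finset ℕ, bad = T'.filter (fun N => ∃ i, (i, ec col v N i) ∉ S) :=
    ⟨_, rfl⟩
  have hEv : (Tx x).filter (EvW Q col S v) = bad := by
    ext N
    simp only [hbad, hT', mem_filter, EvW, and_assoc]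
  rw [hEv]
  by_contra hlt
  rw [not_le] at hlt
  apply hno
  have hT'1 : ∑ N ∈ T', μ N ≤ 1 := by
    rw [← h1, hT']
    exact sum_le_sum_of_subset_of_nonneg (filter_subset _ _) fun N _ _ => h0 N
  have hinv : (0 : ℝ) ≤ 1 / r := by positivity
  refine ⟨fun i F => if (i, F) ∈ S then
    (1 / r) * ∑ N ∈ T'.filter (fun N => ec col v N i = F), μ N else 0, ?_, ?_, ?_, ?_⟩
  · intro i F
    dsimp only
    split_ifs
    · exact mul_nonneg hinv (sum_nonneg fun N _ => h0 N)
    · exact le_rfl
  · have h5 : ∀ i : Fin r, ∑ F, (if (i, F) ∈ S then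
        (1 / (r : ℝ)) * ∑ N ∈ T'.filter (fun N => ec col v N i = F), μ N else 0) ≤ 1 / r := by
      intro i
      calc ∑ F, (if (i, F) ∈ S then
            (1 / (r : ℝ)) * ∑ N ∈ T'.filter (fun N => ec col v N i = F), μ N else 0)
          ≤ ∑ F, (1 / (r : ℝ)) * ∑ N ∈ T'.filter (fun N => ec col v N i = F), μ N := by
            refine sum_le_sum fun F _ => ?_
            split_ifs
            · exact le_rfl
            · exact mul_nonneg hinv (sum_nonneg fun N _ => h0 N)
        _ = (1 / (r : ℝ)) * ∑ N ∈ T', μ N := by rw [← mul_sum, sum_fiberwise]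
        _ ≤ (1 / (r : ℝ)) * 1 := mul_le_mul_of_nonneg_left hT'1 hinv
        _ = 1 / r := by ring
    calc _ ≤ ∑ _i : Fin r, (1 / (r : ℝ)) := sum_le_sum fun i _ => h5 i
      _ = 1 := by
        rw [sum_const, card_univ, Fintype.card_fin, nsmul_eq_mul]
        field_simp
  · intro j
    have h5 : ∀ i : Fin r, ∑ F ∈ univ.filter (fun F => j ∈ F),
        (if (i, F) ∈ S then (1 / (r : ℝ)) * ∑ N ∈ T'.filter (fun N => ec col v N i = F), μ N else 0) =
        (1 / (r : ℝ)) * ∑ N ∈ T', if j ∈ ec col v N i ∧ (i, ec col v N i) ∈ S then μ N else 0 := by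
      intro i
      rw [← sum_fiberwise (s := T') (g := fun N => ec col v N i), mul_sum, sum_filter]
      refine sum_congr rfl fun F _ => ?_
      by_cases h : j ∈ F
      · rw [if_pos h]
        by_cases h' : (i, F) ∈ S
        · rw [if_pos h']
          congr 1
          refine sum_congr rfl fun N hN => ?_
          rw [(mem_filter.mp hN).2, if_pos ⟨h, h'⟩]
        · rw [if_neg h']
          symm
          apply mul_eq_zero_of_right
          refine sum_eq_zero fun N hN => ?_
          rw [(mem_filter.mp hN).2, if_neg (fun h'' => h' h''.2)]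
      · rw [if_neg h]
        symm
        apply mul_eq_zero_of_right
        refine sum_eq_zero fun N hN => ?_
        rw [(mem_filter.mp hN).2, if_neg (fun h'' => h h''.1)]
    rw [sum_congr rfl fun i _ => h5 i, ← mul_sum, sum_comm]
    have h6' := good_mass (Tx x) μ h0 h1 (fun j N => ∃ l : Fin s, (N + v (j, l)).Prime)
      (fun j N => ∃ l : Fin s, Q (N + v (j, l))) (13 / 50) e
      (fun j => by
        refine (h2 j).trans (le_of_eq ?_)
        apply sum_congr _ fun _ _ => rfl
        ext N
        simp only [mem_filter])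
      (fun j => by
        refine (h3 j).trans (le_of_eq ?_)
        apply sum_congr _ fun _ _ => rfl
        ext N
        simp only [mem_filter]) j
    have h6 : 13 / 50 - ((m : ℝ) + 1) * e ≤
        ∑ N ∈ T'.filter (fun N => ∃ l : Fin s, (N + v (j, l)).Prime), μ N := by
      refine h6'.trans (le_of_eq ?_)
      apply sum_congr _ fun _ _ => rfl
      ext N
      simp only [hT', mem_filter]
    have h7 : ∑ N ∈ T'.filter (fun N => ∃ l : Fin s, (N + v (j, l)).Prime), μ N ≤
        ∑ N ∈ T', (∑ i : Fin r, if j ∈ ec col v N i ∧ (i, ec col v N i) ∈ S then μ N else 0) +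
          ∑ N ∈ bad, μ N := by
      rw [hbad, sum_filter, sum_filter, ← sum_add_distrib]
      refine sum_le_sum fun N _ => ?_
      have h8 : ∀ i : Fin r, 0 ≤ if j ∈ ec col v N i ∧ (i, ec col v N i) ∈ S then μ N else 0 := by
        intro i
        split_ifs
        · exact h0 N
        · exact le_rfl
      have h9 : 0 ≤ if ∃ i, (i, ec col v N i) ∉ S then μ N else 0 := by
        split_ifs
        · exact h0 N
        · exact le_rfl
      by_cases h10 : ∃ l : Fin s, (N + v (j, l)).Prime
      · rw [if_pos h10]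
        by_cases h11 : ∃ i, (i, ec col v N i) ∉ S
        · rw [if_pos h11]
          have := sum_nonneg fun i (_ : i ∈ univ) => h8 i
          linarith
        · obtain ⟨l, hl⟩ := h10
          push Not at h11
          have h12 : j ∈ ec col v N (col (N + v (j, l))) := by
            rw [ec, mem_filter]
            exact ⟨mem_univ _, l, hl, rfl⟩
          have h13 := single_le_sum (f := fun i : Fin r =>
            if j ∈ ec col v N i ∧ (i, ec col v N i) ∈ S then μ N else 0)
            (fun i _ => h8 i) (mem_univ (col (N + v (j, l))))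
          rw [if_pos ⟨h12, h11 _⟩] at h13
          linarith
      · rw [if_neg h10]
        have := sum_nonneg fun i (_ : i ∈ univ) => h8 i
        linarith
    have h14 : 13 / 50 - η ≤
        ∑ N ∈ T', (∑ i : Fin r, if j ∈ ec col v N i ∧ (i, ec col v N i) ∈ S then μ N else 0) := by
      linarith
    calc (13 / 50 - η) / r = (1 / (r : ℝ)) * (13 / 50 - η) := by ring
      _ ≤ _ := mul_le_mul_of_nonneg_left h14 hinv
  · intro i F hpos
    dsimp only at hpos
    by_contra hcon
    rw [if_neg hcon] at hpos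
    exact lt_irrefl _ hpos

end Pool.Agent.H61.GQ
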