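import Pool.Agent.H61.GQ.MainW
import Pool.Agent.H61.GQ.ObW
import Pool.Agent.H61.GQ.Fin

/-!
# [H61 GQ FINW] MP_8923e7_nt, AlmostAllTuples with weights: assembly

For almost all admissible `k`-tuples `a` at every scale `L ≤ (log X)^A` the pairs (`i`, `E`) attained with the right order
of magnitude (all `N + a j` almost prime, exactly those with `j ∈ E` prime of colour `i`) carry weights with sum at most
one which cover every index with `(13/50 - η)/r`.
-/

namespace Pool.Agent.H61.GQ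

open Finset Filter Pool.Agent.H61.UN Pool.Agent.H61.UL Pool.Agent.H92.MM Pool.Agent.H92.UM
  Pool.Agent.H61.GD

open Pool.Agent.H21.CP (Q2 Q2_prime)

open Classical in
/-- the pairs (`i`, `E`) attained at least `thr` times -/
noncomputable def att {k r : ℕ} (col : ℕ → Fin r) (a : Fin k → ℕ) (X : ℕ) (thr : ℝ) :
    Finset (Fin r × Finset (Fin k)) :=
  univ.filter (fun q => thr ≤ (cnt col q.1 q.2 a X : ℝ))

open Classical in
theorem aatw (k' r : ℕ) (hr : 1 ≤ r) (ε η : ℝ) (hε : 0 < ε) (hη : 0 < η) : ∃ K : ℕ, ∀ A : ℝ, 0 < A →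
    ∃ (c : ℝ) (L0 X0 : ℕ), 0 < c ∧ ∀ X : ℕ, X0 ≤ X → ∀ L : ℕ, L0 ≤ L → (L : ℝ) ≤ Real.log X ^ A →
      ∀ col : ℕ → Fin r,
      (((Fintype.piFinset fun _ : Fin (k' + 1) => Icc 1 L).filter (fun a => Admv a ∧
        ¬ Cov ((13 / 50 - η) / r) (att col a X
          (c * (min 1 ((L : ℝ) / Real.log X)) ^ K * (X / Real.log X ^ (k' + 1)))))).card : ℝ) ≤
        ε * (L : ℝ) ^ (k' + 1) := by
  obtain ⟨k, hk⟩ : ∃ k, k = k' + 1 := ⟨_, rfl⟩
  have hk1 : 1 ≤ k := by omega
  have hkr : (1 : ℝ) ≤ k := by exact_mod_cast hk1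
  have hrr : (1 : ℝ) ≤ r := by exact_mod_cast hr
  obtain ⟨e, he⟩ : ∃ e : ℝ, e = η / (2 * (k + 1)) := ⟨_, rfl⟩
  have he0 : 0 < e := by
    rw [he]
    positivity
  have hek : ((k : ℝ) + 1) * e ≤ η / 2 := by
    rw [he]
    apply le_of_eq
    field_simp
  obtain ⟨s, a, hs, ha, ha1, hob⟩ := one_boxG Q2 blkQ e he0 k hk1
  refine ⟨k * s - (k' + 1), fun A hA => ?_⟩
  obtain ⟨M, hM⟩ : ∃ M : ℕ, M = 2 ^ (r * 2 ^ k) := ⟨_, rfl⟩
  have hM0 : (0 : ℝ) < M := by
    rw [hM]
    positivity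
  obtain ⟨δ, hδ, T0, hbox⟩ := adm_box k hk1 (ε / M) (by positivity) s hs
  obtain ⟨c0, hc0, hobA⟩ := hob (A + 1) (by linarith)
  obtain ⟨c1, T1, lam, hc1, hT1, -, hev⟩ := main_W k s k' hs (by omega) a ha ha1 (A + 1) δ
    (c0 * (η / 2)) hδ (by positivity)
  have hx : Tendsto (fun X : ℕ => (X : ℝ) / (2 * T1)) atTop atTop :=
    (tendsto_natCast_atTop_atTop).atTop_div_const (by positivity)
  have hev1 := hx.eventually ((hev.and hobA).and (eventually_ge_atTop (1 : ℝ)))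
  have hev2 := (tendsto_natCast_atTop_atTop (R := ℝ)).eventually (ev_two A T1 hA hT1 1)
  obtain ⟨X0, hX0⟩ := eventually_atTop.1 (hev1.and hev2)
  refine ⟨c1 / (4 * T1 * (r * 2 ^ k)), T0 + 1, max X0 1, by positivity,
    fun X hX L hL hLA col => ?_⟩
  obtain ⟨⟨⟨hE1, hE3⟩, hx1⟩, hE2⟩ := hX0 X ((le_max_left _ _).trans hX)
  have hXpos : (0 : ℝ) < X := by
    have : 1 ≤ X := (le_max_right _ _).trans hX
    exact_mod_cast this
  obtain ⟨hq1, hq2, hq3, hq4, hq5⟩ := hE2 L (Nat.cast_nonneg _) hLA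
  obtain ⟨x, hxd⟩ : ∃ x : ℝ, x = (X : ℝ) / (2 * T1) := ⟨_, rfl⟩
  rw [← hxd] at hE1 hE3 hx1 hq1 hq2 hq3 hq4
  by_contra hcon
  rw [not_le] at hcon
  obtain ⟨thr, hthr⟩ : ∃ thr : ℝ, thr = c1 / (4 * T1 * (r * 2 ^ k)) *
    (min 1 ((L : ℝ) / Real.log X)) ^ (k * s - (k' + 1)) * (X / Real.log X ^ (k' + 1)) := ⟨_, rfl⟩
  rw [← hthr] at hcon
  have hL1 : 1 ≤ L := by omega
  have hLr : (1 : ℝ) ≤ L := by exact_mod_cast hL1
  subst hk
  -- the bad tuples with the most frequent set of attained pairs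
  obtain ⟨Bad, hBad⟩ : ∃ Bad : Finset (Fin (k' + 1) → ℕ), Bad = (Fintype.piFinset fun _ :
        Fin (k' + 1) => Icc 1 L).filter (fun a => Admv a ∧ ¬ Cov ((13 / 50 - η) / r)
          (att col a X thr)) := ⟨_, rfl⟩
  rw [← hBad] at hcon
  obtain ⟨S, -, hS⟩ := exists_le_card_fiber_of_nsmul_le_card_of_maps_to
    (s := Bad) (t := (univ : Finset (Finset (Fin r × Finset (Fin (k' + 1))))))
    (f := fun a => att col a X thr) (b := ε / M * (L : ℝ) ^ (k' + 1)) (fun _ _ => mem_univ _)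
    ⟨∅, mem_univ _⟩ (by
      rw [card_univ, Fintype.card_finset, Fintype.card_prod, Fintype.card_finset, Fintype.card_fin,
        Fintype.card_fin, nsmul_eq_mul, ← hM]
      refine le_trans (le_of_eq ?_) hcon.le
      field_simp)
  have hSno : ¬ Cov ((13 / 50 - η) / r) S := by
    have h1 : 0 < ((Bad.filter (fun a => att col a X thr = S)).card : ℝ) := by
      refine lt_of_lt_of_le (by positivity) hS
    have h2 : 0 < (Bad.filter (fun a => att col a X thr = S)).card := by exact_mod_cast h1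
    obtain ⟨b, hb⟩ := card_pos.1 h2
    rw [mem_filter, hBad, mem_filter] at hb
    rw [← hb.2]
    exact hb.1.2.2
  obtain ⟨R, hR⟩ : ∃ R : Set (Fin (k' + 1) → ℕ), R = {a | a ∈ (Fintype.piFinset fun _ :
        Fin (k' + 1) => Icc 1 L) ∧ Admv a ∧ att col a X thr = S} := ⟨_, rfl⟩
  have hB2 := hbox L (by omega) R (by
    intro a ha
    rw [hR] at ha
    exact ha.2.1) (by
    refine hS.trans ?_
    have h1 : Bad.filter (fun a => att col a X thr = S) ⊆
        (Fintype.piFinset fun _ : Fin (k' + 1) => Icc 1 L).filter (fun n => n ∈ R) := by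
      intro n hn
      rw [mem_filter, hBad, mem_filter] at hn
      rw [mem_filter, hR]
      exact ⟨hn.1.1, hn.1.1, hn.1.2.1, hn.2⟩
    exact_mod_cast card_le_card h1)
  obtain ⟨VV, hVV⟩ : ∃ VV : Finset (Fin (k' + 1) → Fin s → Fin (L + 1)), VV =
      univ.filter (fun V : Fin (k' + 1) → Fin s → Fin (L + 1) =>
        (∀ i j i' j', V i j = V i' j' → i = i' ∧ j = j') ∧
        (∀ p : ℕ, p.Prime → ∃ t : ℕ, ∀ i j, ¬ p ∣ t + (V i j : ℕ)) ∧
        ∀ φ : Fin (k' + 1) → Fin s, (fun i => (V i (φ i) : ℕ)) ∈ R) := ⟨_, rfl⟩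
  rw [← hVV] at hB2
  obtain ⟨BB, hBB⟩ : ∃ BB : Finset (Fin (k' + 1) × Fin s → ℕ),
      BB = VV.image (fun V q => (V q.1 q.2 : ℕ)) := ⟨_, rfl⟩
  have hBBcard : BB.card = VV.card := by
    rw [hBB]
    apply card_image_of_injective
    intro V V' h
    funext i j
    exact Fin.ext (congrFun h (i, j))
  obtain ⟨D, hD⟩ : ∃ D : Finset (Fin (k' + 1) → ℕ),
    D = (Fintype.piFinset fun _ : Fin (k' + 1) => Icc 1 L).filter (fun n => n ∈ R) := ⟨_, rfl⟩
  have hDcard : D.card ≤ L ^ (k' + 1) := by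
    rw [hD]
    refine (card_filter_le _ _).trans ?_
    rw [Fintype.card_piFinset]
    simp
  have hdata : ∀ v ∈ BB, ∃ V ∈ VV, ∀ q, v q = (V q.1 q.2 : ℕ) := by
    intro v hv
    rw [hBB, mem_image] at hv
    obtain ⟨V, hV, rfl⟩ := hv
    exact ⟨V, hV, fun q => rfl⟩
  obtain ⟨pat, hpat⟩ : ∃ pat : Fin r → (Fin (k' + 1) → ℕ) → ℕ → Finset (Fin (k' + 1)),
    pat = fun i b N => univ.filter (fun j => (N + b j).Prime ∧ col (N + b j) = i) := ⟨_, rfl⟩
  obtain ⟨G, hG⟩ : ∃ G : ℕ → Finset (Fin (k' + 1) → ℕ), G = fun N =>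
    D.filter (fun a => (∀ j, Q2 (N + a j)) ∧ ∃ i, (i, pat i a N) ∉ S) := ⟨_, rfl⟩
  have hLx : (L : ℝ) ≤ Real.log x ^ (A + 1) := by
    refine le_trans ?_ hq1
    rw [one_mul]
  have hBBadm : ∀ v ∈ BB, v ∈ IJ (Fin (k' + 1) × Fin s) L ∧ Admv v := by
    intro v hv
    obtain ⟨V, hV, h⟩ := hdata v hv
    rw [hVV, mem_filter] at hV
    refine ⟨mem_IJ.2 ⟨fun q => ?_, fun q q' hqq => ?_⟩, fun p hp => ?_⟩
    · rw [h]
      have := (V q.1 q.2).isLt
      omega
    · rw [h, h] at hqq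
      have h2 := hV.2.1 _ _ _ _ (Fin.ext hqq)
      exact Prod.ext h2.1 h2.2
    · obtain ⟨t, ht⟩ := hV.2.2.1 p hp
      exact ⟨t, fun q => by rw [h]; exact ht q.1 q.2⟩
  have key := hE1 L hL1 hLx False (fun h => h.elim) (EvW Q2 col S) BB hBBadm (by
      intro v hv
      obtain ⟨h1, h2⟩ := hBBadm v hv
      exact hE3 L hL1 hLx v h1 h2 (EvW Q2 col S v) (η / 2) (by positivity)
        (evW_prob Q2 hr hη hek v col S hSno)) (by
      rw [hBBcard]
      exact hB2) G (by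
      intro N hN b hb i
      rw [hG] at hb
      simp only at hb
      rw [mem_filter, hD, mem_filter, Fintype.mem_piFinset] at hb
      exact ⟨(mem_Icc.1 (hb.1.1 i)).2, rgh_of_q2 hx1 ha1 hN (hb.2.1 i)⟩) (by
      intro v hv N _ _ hEvW _
      obtain ⟨hq, i0, hi0⟩ := hEvW
      obtain ⟨V, hV, h⟩ := hdata v hv
      rw [hVV, mem_filter] at hV
      obtain ⟨φ, hφ⟩ : ∃ φ : Fin (k' + 1) → Fin s, ∀ j, Q2 (N + v (j, φ j)) ∧
          (((N + v (j, φ j)).Prime ∧ col (N + v (j, φ j)) = i0) ↔ j ∈ ec col v N i0) := by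
        have : ∀ j : Fin (k' + 1), ∃ l : Fin s, Q2 (N + v (j, l)) ∧
            (((N + v (j, l)).Prime ∧ col (N + v (j, l)) = i0) ↔ j ∈ ec col v N i0) := by
          intro j
          by_cases hj : j ∈ ec col v N i0
          · have hj' := hj
            rw [ec, mem_filter] at hj'
            obtain ⟨-, l, hl⟩ := hj'
            exact ⟨l, Q2_prime _ hl.1, fun _ => hj, fun _ => hl⟩
          · obtain ⟨l, hl⟩ := hq j
            refine ⟨l, hl, fun h => ?_, fun h => absurd h hj⟩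
            rw [ec, mem_filter]
            exact ⟨mem_univ _, l, h⟩
        choose φ hφ using this
        exact ⟨φ, hφ⟩
      refine ⟨fun j => (j, φ j), fun i j hij => ?_, ?_⟩
      · simp only [Prod.mk.injEq] at hij
        exact hij.1
      · rw [hG]
        simp only
        have hRm := hV.2.2.2 φ
        have e1 : (v ∘ fun j => (j, φ j)) = fun i => (V i (φ i) : ℕ) := by
          funext i
          simp only [Function.comp, h]
        rw [mem_filter]
        refine ⟨?_, fun j => (hφ j).1, i0, ?_⟩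
        · rw [hD, mem_filter, e1]
          refine ⟨?_, hRm⟩
          rw [hR] at hRm
          exact hRm.1
        · have h1 : pat i0 (v ∘ fun j => (j, φ j)) N = ec col v N i0 := by
            rw [hpat]
            ext j
            rw [mem_filter]
            simp only [mem_univ, true_and]
            exact (hφ j).2
          rw [h1]
          exact hi0)
  -- upper bound
  have hlX : 0 < Real.log X := by linarith
  have hthr0 : 0 ≤ thr := by
    rw [hthr]
    have : 0 ≤ min 1 ((L : ℝ) / Real.log X) := le_min zero_le_one (by positivity)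
    positivity
  have hTx0 : ∀ N ∈ (Tx x).filter (fun N : ℕ => (N : ℝ) ≤ T1 * x), N ∈ Icc 1 X := by
    intro N hN
    rw [mem_filter, Tx, mem_Ioc] at hN
    have h1 : T1 * x = X / 2 := by
      rw [hxd]
      have : T1 ≠ 0 := by positivity
      field_simp
    have h2 : (N : ℝ) ≤ X / 2 := by rw [← h1]; exact hN.2
    have h4 : (N : ℝ) ≤ X := by linarith
    have h5 : N ≤ X := by exact_mod_cast h4
    rw [mem_Icc]
    omega
  have hone : ∀ b ∈ D, (((Icc 1 X).filter (fun N => (∀ j, Q2 (N + b j)) ∧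
      ∃ i, (i, pat i b N) ∉ S)).card : ℝ) ≤ r * 2 ^ (k' + 1) * thr := by
    intro b hb
    rw [hD, mem_filter, hR] at hb
    have hSb := hb.2.2.2
    obtain ⟨PE, hPE⟩ : ∃ PE : Finset (Fin r × Finset (Fin (k' + 1))),
      PE = univ.filter (fun q => q ∉ S) := ⟨_, rfl⟩
    have h1 : (Icc 1 X).filter (fun N => (∀ j, Q2 (N + b j)) ∧
        ∃ i, (i, pat i b N) ∉ S) ⊆
        PE.biUnion (fun q => (Icc 1 X).filter (fun N => (∀ j, Q2 (N + b j)) ∧
          ∀ j, ((N + b j).Prime ∧ col (N + b j) = q.1) ↔ j ∈ q.2)) := by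
      intro N hN
      rw [mem_filter] at hN
      obtain ⟨hN1, hN2, i0, hi0⟩ := hN
      rw [mem_biUnion]
      refine ⟨(i0, pat i0 b N), ?_, ?_⟩
      · rw [hPE, mem_filter]
        exact ⟨mem_univ _, hi0⟩
      · rw [mem_filter]
        refine ⟨hN1, hN2, fun j => ?_⟩
        rw [hpat, mem_filter]
        simp
    have h2 := (card_le_card h1).trans card_biUnion_le
    have h3 : (((Icc 1 X).filter (fun N => (∀ j, Q2 (N + b j)) ∧
        ∃ i, (i, pat i b N) ∉ S)).card : ℝ) ≤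
        ∑ q ∈ PE, (cnt col q.1 q.2 b X : ℝ) := by
      have h4 : ((∑ q ∈ PE, ((Icc 1 X).filter (fun N => (∀ j, Q2 (N + b j)) ∧
          ∀ j, ((N + b j).Prime ∧ col (N + b j) = q.1) ↔ j ∈ q.2)).card : ℕ) : ℝ) =
          ∑ q ∈ PE, (cnt col q.1 q.2 b X : ℝ) := by
        rw [Nat.cast_sum]
        rfl
      rw [← h4]
      exact_mod_cast h2
    refine h3.trans ?_
    calc ∑ q ∈ PE, (cnt col q.1 q.2 b X : ℝ) ≤ ∑ _q ∈ PE, thr := by
          apply sum_le_sum
          intro q hq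
          rw [hPE, mem_filter] at hq
          by_contra hlt
          rw [not_le] at hlt
          apply hq.2
          rw [← hSb, att, mem_filter]
          exact ⟨mem_univ _, hlt.le⟩
      _ = PE.card * thr := by rw [sum_const, nsmul_eq_mul]
      _ ≤ _ := by
          apply mul_le_mul_of_nonneg_right _ hthr0
          have h5 : PE.card ≤ r * 2 ^ (k' + 1) := by
            rw [hPE]
            refine (card_filter_le _ _).trans (le_of_eq ?_)
            rw [card_univ, Fintype.card_prod, Fintype.card_fin, Fintype.card_finset,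
              Fintype.card_fin]
          exact_mod_cast h5
  have hup2 : ∑ N ∈ (Tx x).filter (fun N : ℕ => (N : ℝ) ≤ T1 * x), ((G N).card : ℝ) ≤
      (L : ℝ) ^ (k' + 1) * (r * 2 ^ (k' + 1) * thr) := by
    have h1 : ∑ N ∈ (Tx x).filter (fun N : ℕ => (N : ℝ) ≤ T1 * x), (G N).card ≤
        ∑ N ∈ Icc 1 X, (G N).card :=
      sum_le_sum_of_subset hTx0
    have h2 : ∑ N ∈ Icc 1 X, (G N).card = ∑ b ∈ D, ((Icc 1 X).filter (fun N =>
        (∀ j, Q2 (N + b j)) ∧ ∃ i, (i, pat i b N) ∉ S)).card := by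
      rw [hG]
      simp only [card_filter]
      rw [sum_comm]
    calc ∑ N ∈ (Tx x).filter (fun N : ℕ => (N : ℝ) ≤ T1 * x), ((G N).card : ℝ)
        ≤ ((∑ N ∈ Icc 1 X, (G N).card : ℕ) : ℝ) := by
          rw [← Nat.cast_sum]
          exact_mod_cast h1
      _ = ∑ b ∈ D, (((Icc 1 X).filter (fun N => (∀ j, Q2 (N + b j)) ∧
          ∃ i, (i, pat i b N) ∉ S)).card : ℝ) := by
          rw [h2, Nat.cast_sum]
      _ ≤ ∑ _b ∈ D, (r * 2 ^ (k' + 1) * thr) := sum_le_sum hone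
      _ = D.card * (r * 2 ^ (k' + 1) * thr) := by rw [sum_const, nsmul_eq_mul]
      _ ≤ _ := mul_le_mul_of_nonneg_right (by exact_mod_cast hDcard) (by positivity)
  have hkey2 := key.trans hup2
  obtain ⟨M', hM'⟩ : ∃ M : ℝ, M = (min 1 ((L : ℝ) / Real.log X)) ^ ((k' + 1) * s - (k' + 1)) :=
    ⟨_, rfl⟩
  have hM'0 : 0 < M' := by
    rw [hM']
    have : 0 < min 1 ((L : ℝ) / Real.log X) := lt_min one_pos (by positivity)
    positivity
  have hmono : (L : ℝ) / Real.log X ≤ L / Real.log x :=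
    div_le_div_of_nonneg_left (by positivity) hq3 hq4
  have h1 : M' ≤ (min 1 ((L : ℝ) / Real.log x)) ^ ((k' + 1) * s - (k' + 1)) := by
    rw [hM']
    apply pow_le_pow_left₀ (le_min zero_le_one (by positivity))
    exact min_le_min le_rfl hmono
  have h2 : ((L : ℝ) / Real.log X) ^ (k' + 1) ≤ ((L : ℝ) / Real.log x) ^ (k' + 1) :=
    pow_le_pow_left₀ (by positivity) hmono _
  have h3 : c1 * x * ((L : ℝ) / Real.log X) ^ (k' + 1) * M' ≤
      c1 * x * ((L : ℝ) / Real.log x) ^ (k' + 1) *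
        (min 1 ((L : ℝ) / Real.log x)) ^ ((k' + 1) * s - (k' + 1)) := by
    apply mul_le_mul _ h1 hM'0.le (by positivity)
    exact mul_le_mul_of_nonneg_left h2 (by positivity)
  have h4 := h3.trans hkey2
  rw [hthr, ← hM', hxd] at h4
  have e2 : Real.log X ≠ 0 := hlX.ne'
  have e1 : T1 ≠ 0 := by positivity
  have hr0 : (r : ℝ) ≠ 0 := by positivity
  have h5 : c1 * ((X : ℝ) / (2 * T1)) * ((L : ℝ) / Real.log X) ^ (k' + 1) * M' =
      2 * ((L : ℝ) ^ (k' + 1) * (r * 2 ^ (k' + 1) * (c1 / (4 * T1 * (r * 2 ^ (k' + 1))) * M' *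
        (X / Real.log X ^ (k' + 1))))) := by
    rw [div_pow]
    field_simp
    ring
  have h7 : 0 < (L : ℝ) ^ (k' + 1) * (r * 2 ^ (k' + 1) * (c1 / (4 * T1 * (r * 2 ^ (k' + 1))) * M' *
        (X / Real.log X ^ (k' + 1)))) := by positivity
  rw [h5] at h4
  linarith

end Pool.Agent.H61.GQ
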