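import Pool.Agent.H61.GQ.MainV
import Pool.Agent.H61.GQ.AdmBoxE
import Pool.Agent.H61.GQ.FinW

/-!
# [H61 GQ FINV] MP_8923e7_nt, AlmostAllTuples with weights and explicit exceptional set: assembly

For almost all admissible `k`-tuples `a` at every scale `L ≤ (log X)^A` the pairs (`i`, `E`) attained with the right order
of magnitude (all `N + a j` almost prime, exactly those with `j ∈ E` prime of colour `i`) carry weights with sum at most
one which cover every index with `(13/50 - η)/r`.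
-/

namespace Pool.Agent.H61.GQ

open Finset Filter Pool.Agent.H61.UN Pool.Agent.H61.UL Pool.Agent.H92.MM Pool.Agent.H92.UM
  Pool.Agent.H61.GD

open Pool.Agent.H21.CP (Q2 Q2_prime)

theorem ev_V (A C x0 : ℝ) (hA : 0 < A) (hC : 1 ≤ C) : ∀ᶠ X : ℝ in atTop, ∀ L δ : ℝ,
    L ≤ Real.log X ^ A → 0 < δ → δ ≤ 1 → 1 ≤ δ * L →
      x0 ≤ X * δ / (2 * C) ∧ L ≤ Real.log (X * δ / (2 * C)) ^ (A + 1) ∧
      Real.log X ≤ 2 * Real.log (X * δ / (2 * C)) ∧ 0 < Real.log (X * δ / (2 * C)) ∧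
      Real.log (X * δ / (2 * C)) ≤ Real.log X := by
  have hl : Tendsto Real.log atTop atTop := Real.tendsto_log_atTop
  have h1 : ∀ᶠ X : ℝ in atTop, 2 * C * Real.log X ^ A ≤ X ^ (1 / 4 : ℝ) := by
    have h6 : (fun X : ℝ => Real.log X ^ A) =o[atTop] fun X : ℝ => X ^ (1 / 4 : ℝ) :=
      isLittleO_log_rpow_rpow_atTop A (by norm_num)
    have h7 : (0 : ℝ) < 1 / (2 * C) := by positivity
    filter_upwards [h6.bound h7, eventually_ge_atTop (1 : ℝ)] with X hX hX1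
    have h8 : 0 ≤ Real.log X := Real.log_nonneg hX1
    rw [Real.norm_of_nonneg (Real.rpow_nonneg h8 A),
      Real.norm_of_nonneg (by positivity)] at hX
    have h9 := mul_le_mul_of_nonneg_left hX (show (0 : ℝ) ≤ 2 * C by positivity)
    refine h9.trans (le_of_eq ?_)
    field_simp
  have h2 : ∀ᶠ X : ℝ in atTop, x0 ≤ X ^ (3 / 4 : ℝ) :=
    (tendsto_rpow_atTop (by norm_num)).eventually (eventually_ge_atTop x0)
  filter_upwards [h1, h2, hl.eventually (eventually_ge_atTop (2 * (4 / 3 : ℝ) ^ A)),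
    eventually_ge_atTop (2 : ℝ)] with X h1 h2 h3 hX2
  intro L δ hL hδ hδ1 hδL
  have hX0 : 0 < X := by linarith
  have hC0 : 0 < C := by linarith
  have hL0 : 0 < L := by
    by_contra h
    rw [not_lt] at h
    have := mul_nonpos_of_nonneg_of_nonpos hδ.le h
    linarith
  have h43 : (0 : ℝ) < (4 / 3 : ℝ) ^ A := by positivity
  have hlX : 0 < Real.log X := by linarith
  obtain ⟨x, hx⟩ : ∃ x : ℝ, x = X * δ / (2 * C) := ⟨_, rfl⟩
  rw [← hx]
  have hxX : X ^ (3 / 4 : ℝ) ≤ x := by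
    rw [hx, le_div_iff₀ (by positivity)]
    have h5 : X = X ^ (3 / 4 : ℝ) * X ^ (1 / 4 : ℝ) := by
      rw [← Real.rpow_add hX0]
      norm_num
    have h6 : 0 < X ^ (3 / 4 : ℝ) := by positivity
    have h7 : X ^ (3 / 4 : ℝ) * (2 * C * L) ≤ X := by
      nth_rewrite 2 [h5]
      refine mul_le_mul_of_nonneg_left (le_trans ?_ h1) h6.le
      exact mul_le_mul_of_nonneg_left hL (by positivity)
    calc X ^ (3 / 4 : ℝ) * (2 * C) ≤ X ^ (3 / 4 : ℝ) * (2 * C) * (δ * L) :=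
          le_mul_of_one_le_right (by positivity) hδL
      _ = X ^ (3 / 4 : ℝ) * (2 * C * L) * δ := by ring
      _ ≤ X * δ := mul_le_mul_of_nonneg_right h7 hδ.le
  have h34 : 0 < X ^ (3 / 4 : ℝ) := by positivity
  have hx0 : 0 < x := lt_of_lt_of_le h34 hxX
  have hlx : 3 / 4 * Real.log X ≤ Real.log x := by
    rw [← Real.log_rpow hX0]
    exact Real.log_le_log h34 hxX
  have hxX2 : x ≤ X := by
    rw [hx, div_le_iff₀ (by positivity)]
    nlinarith
  refine ⟨h2.trans hxX, ?_, by linarith, by linarith, Real.log_le_log hx0 hxX2⟩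
  have hlx0 : 0 < Real.log x := by linarith
  refine hL.trans ?_
  rw [Real.rpow_add hlx0, Real.rpow_one]
  have h8 : (3 / 4 * Real.log X) ^ A ≤ Real.log x ^ A :=
    Real.rpow_le_rpow (by positivity) hlx hA.le
  rw [Real.mul_rpow (by norm_num) hlX.le] at h8
  have h9 : (3 / 4 : ℝ) ^ A * (4 / 3 : ℝ) ^ A = 1 := by
    rw [← Real.mul_rpow (by norm_num) (by norm_num)]
    norm_num
  have h10 : (4 / 3 : ℝ) ^ A ≤ Real.log x := by linarith
  calc Real.log X ^ A = (3 / 4 : ℝ) ^ A * Real.log X ^ A * (4 / 3 : ℝ) ^ A := by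
        rw [mul_right_comm, h9, one_mul]
    _ ≤ Real.log x ^ A * Real.log x := mul_le_mul h8 h10 h43.le (by positivity)

open Classical in
theorem aatv (k' r : ℕ) (hr : 1 ≤ r) (η : ℝ) (hη : 0 < η) : ∃ K : ℕ, 1 ≤ K ∧ ∀ A : ℝ, 0 < A →
    ∃ (c : ℝ) (X0 : ℕ), 0 < c ∧ ∀ X : ℕ, X0 ≤ X → ∀ L : ℕ, (L : ℝ) ≤ Real.log X ^ A →
      ∀ ε : ℝ, 0 < ε → ε ≤ 1 → (K : ℝ) ≤ ε ^ K * L → ∀ col : ℕ → Fin r,
      (((Fintype.piFinset fun _ : Fin (k' + 1) => Icc 1 L).filter (fun a => Admv a ∧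
        ¬ Cov ((13 / 50 - η) / r) (att col a X
          (c * (ε * min 1 ((L : ℝ) / Real.log X)) ^ K * (X / Real.log X ^ (k' + 1)))))).card : ℝ) ≤
        ε * (L : ℝ) ^ (k' + 1) := by
  obtain ⟨k, hk⟩ : ∃ k, k = k' + 1 := ⟨_, rfl⟩
  have hk1 : 1 ≤ k := by omega
  have hkr : (1 : ℝ) ≤ k := by exact_mod_cast hk1
  have hrr : (1 : ℝ) ≤ r := by exact_mod_cast hr
  obtain ⟨e, he⟩ : ∃ e : ℝ, e = η / (2 * (k + 1)) := ⟨_, rfl⟩
  have he0 : 0 < e := by
    rw [he]
    positivity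
  have hek : ((k : ℝ) + 1) * e ≤ η / 2 := by
    rw [he]
    apply le_of_eq
    field_simp
  obtain ⟨s, a, hs, ha, ha1, hob⟩ := one_boxG Q2 blkQ e he0 k hk1
  obtain ⟨M, hM⟩ : ∃ M : ℕ, M = 2 ^ (r * 2 ^ k) := ⟨_, rfl⟩
  have hM1 : (1 : ℝ) ≤ M := by
    rw [hM]
    have : 1 ≤ 2 ^ (r * 2 ^ k) := Nat.one_le_two_pow
    exact_mod_cast this
  have hM0 : (0 : ℝ) < M := by linarith
  obtain ⟨κ₀, hκ0, hκ1, hbox⟩ := adm_boxE k hk1 s hs
  obtain ⟨q, hq⟩ : ∃ q : ℝ, q = κ₀ / (M : ℝ) ^ (s ^ k) := ⟨_, rfl⟩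
  have hq0 : 0 < q := by
    rw [hq]
    positivity
  have hq1 : q ≤ 1 := by
    rw [hq, div_le_one (by positivity)]
    exact hκ1.trans (one_le_pow₀ hM1)
  obtain ⟨K, hK⟩ : ∃ K : ℕ, K = 4 * s ^ k + k * s + ⌈1 / q⌉₊ + 1 := ⟨_, rfl⟩
  refine ⟨K, by omega, fun A hA => ?_⟩
  obtain ⟨c0, hc0, hobA⟩ := hob (A + 1) (by linarith)
  obtain ⟨c1, C, lam, hc1, hC, -, hev⟩ := main_V k s k' hs (by omega) a ha ha1 (A + 1)
    (c0 * (η / 2)) (by positivity)
  obtain ⟨x0, hx0⟩ := eventually_atTop.1 ((hev.and hobA).and (eventually_ge_atTop (1 : ℝ)))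
  have hev2 := (tendsto_natCast_atTop_atTop (R := ℝ)).eventually (ev_V A C x0 hA hC)
  obtain ⟨X0, hX0⟩ := eventually_atTop.1 hev2
  refine ⟨c1 * q ^ 4 / (8 * C * (r * 2 ^ k)), max X0 1, by positivity,
    fun X hX L hLA ε hε hε1 hKL col => ?_⟩
  have hC0 : 0 < C := by linarith
  have hXpos : (0 : ℝ) < X := by
    have : 1 ≤ X := (le_max_right _ _).trans hX
    exact_mod_cast this
  -- the density
  have hK1 : (1 : ℝ) ≤ K := by
    have : 1 ≤ K := by omega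
    exact_mod_cast this
  have hεK : ε ^ K ≤ 1 := pow_le_one₀ hε.le hε1
  have hLr : (1 : ℝ) ≤ L := by
    have h0 : (0 : ℝ) ≤ L := Nat.cast_nonneg _
    have h1 : ε ^ K * L ≤ 1 * L := mul_le_mul_of_nonneg_right hεK h0
    linarith
  have hL1 : 1 ≤ L := by exact_mod_cast hLr
  obtain ⟨δ, hδd⟩ : ∃ δ : ℝ, δ = q * ε ^ (s ^ k) := ⟨_, rfl⟩
  have hδ : 0 < δ := by
    rw [hδd]
    positivity
  have hδ1 : δ ≤ 1 := by
    rw [hδd]
    exact mul_le_one₀ hq1 (by positivity) (pow_le_one₀ hε.le hε1)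
  have hδe : κ₀ * (ε / M) ^ (s ^ k) = δ := by
    rw [hδd, hq, div_pow]
    field_simp
  have hδL : 1 ≤ δ * L := by
    have h1 : ε ^ K ≤ ε ^ (s ^ k) := pow_le_pow_of_le_one hε.le hε1 (by omega)
    have h2 : 1 / q ≤ K := by
      have h3 : 1 / q ≤ (⌈1 / q⌉₊ : ℝ) := Nat.le_ceil _
      have h4 : ⌈1 / q⌉₊ ≤ K := by omega
      have h5 : (⌈1 / q⌉₊ : ℝ) ≤ K := by exact_mod_cast h4
      linarith
    rw [div_le_iff₀ hq0] at h2
    have h6 : q * (ε ^ K * L) ≤ δ * L := by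
      rw [hδd, mul_assoc]
      exact mul_le_mul_of_nonneg_left (mul_le_mul_of_nonneg_right h1 (by linarith)) hq0.le
    have h7 : q * K ≤ q * (ε ^ K * L) := mul_le_mul_of_nonneg_left hKL hq0.le
    linarith
  obtain ⟨hx00, hLx, hq3, hq2, hq4⟩ := hX0 X ((le_max_left _ _).trans hX) L δ hLA hδ hδ1 hδL
  obtain ⟨x, hxd⟩ : ∃ x : ℝ, x = (X : ℝ) * δ / (2 * C) := ⟨_, rfl⟩
  rw [← hxd] at hx00 hLx hq2 hq3 hq4
  obtain ⟨⟨hE1, hE3⟩, hx1⟩ := hx0 x hx00
  by_contra hcon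
  rw [not_le] at hcon
  obtain ⟨thr, hthr⟩ : ∃ thr : ℝ, thr = c1 * q ^ 4 / (8 * C * (r * 2 ^ k)) *
    (ε * min 1 ((L : ℝ) / Real.log X)) ^ K * (X / Real.log X ^ (k' + 1)) := ⟨_, rfl⟩
  rw [← hthr] at hcon
  subst hk
  -- the bad tuples with the most frequent set of attained pairs
  obtain ⟨Bad, hBad⟩ : ∃ Bad : Finset (Fin (k' + 1) → ℕ), Bad = (Fintype.piFinset fun _ :
        Fin (k' + 1) => Icc 1 L).filter (fun a => Admv a ∧ ¬ Cov ((13 / 50 - η) / r)
          (att col a X thr)) := ⟨_, rfl⟩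
  rw [← hBad] at hcon
  obtain ⟨S, -, hS⟩ := exists_le_card_fiber_of_nsmul_le_card_of_maps_to
    (s := Bad) (t := (univ : Finset (Finset (Fin r × Finset (Fin (k' + 1))))))
    (f := fun a => att col a X thr) (b := ε / M * (L : ℝ) ^ (k' + 1)) (fun _ _ => mem_univ _)
    ⟨∅, mem_univ _⟩ (by
      rw [card_univ, Fintype.card_finset, Fintype.card_prod, Fintype.card_finset, Fintype.card_fin,
        Fintype.card_fin, nsmul_eq_mul, ← hM]
      refine le_trans (le_of_eq ?_) hcon.le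
      field_simp)
  have hSno : ¬ Cov ((13 / 50 - η) / r) S := by
    have h1 : 0 < ((Bad.filter (fun a => att col a X thr = S)).card : ℝ) := by
      refine lt_of_lt_of_le (by positivity) hS
    have h2 : 0 < (Bad.filter (fun a => att col a X thr = S)).card := by exact_mod_cast h1
    obtain ⟨b, hb⟩ := card_pos.1 h2
    rw [mem_filter, hBad, mem_filter] at hb
    rw [← hb.2]
    exact hb.1.2.2
  obtain ⟨R, hR⟩ : ∃ R : Set (Fin (k' + 1) → ℕ), R = {a | a ∈ (Fintype.piFinset fun _ :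
        Fin (k' + 1) => Icc 1 L) ∧ Admv a ∧ att col a X thr = S} := ⟨_, rfl⟩
  have hB2 := hbox (ε / M) (by positivity) L hL1 (by rw [hδe]; exact hδL) R (by
    intro a ha
    rw [hR] at ha
    exact ha.2.1) (by
    refine hS.trans ?_
    have h1 : Bad.filter (fun a => att col a X thr = S) ⊆
        (Fintype.piFinset fun _ : Fin (k' + 1) => Icc 1 L).filter (fun n => n ∈ R) := by
      intro n hn
      rw [mem_filter, hBad, mem_filter] at hn
      rw [mem_filter, hR]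
      exact ⟨hn.1.1, hn.1.1, hn.1.2.1, hn.2⟩
    exact_mod_cast card_le_card h1)
  obtain ⟨VV, hVV⟩ : ∃ VV : Finset (Fin (k' + 1) → Fin s → Fin (L + 1)), VV =
      univ.filter (fun V : Fin (k' + 1) → Fin s → Fin (L + 1) =>
        (∀ i j i' j', V i j = V i' j' → i = i' ∧ j = j') ∧
        (∀ p : ℕ, p.Prime → ∃ t : ℕ, ∀ i j, ¬ p ∣ t + (V i j : ℕ)) ∧
        ∀ φ : Fin (k' + 1) → Fin s, (fun i => (V i (φ i) : ℕ)) ∈ R) := ⟨_, rfl⟩
  rw [← hVV, hδe] at hB2
  obtain ⟨BB, hBB⟩ : ∃ BB : Finset (Fin (k' + 1) × Fin s → ℕ),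
      BB = VV.image (fun V q => (V q.1 q.2 : ℕ)) := ⟨_, rfl⟩
  have hBBcard : BB.card = VV.card := by
    rw [hBB]
    apply card_image_of_injective
    intro V V' h
    funext i j
    exact Fin.ext (congrFun h (i, j))
  obtain ⟨D, hD⟩ : ∃ D : Finset (Fin (k' + 1) → ℕ),
    D = (Fintype.piFinset fun _ : Fin (k' + 1) => Icc 1 L).filter (fun n => n ∈ R) := ⟨_, rfl⟩
  have hDcard : D.card ≤ L ^ (k' + 1) := by
    rw [hD]
    refine (card_filter_le _ _).trans ?_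
    rw [Fintype.card_piFinset]
    simp
  have hdata : ∀ v ∈ BB, ∃ V ∈ VV, ∀ q, v q = (V q.1 q.2 : ℕ) := by
    intro v hv
    rw [hBB, mem_image] at hv
    obtain ⟨V, hV, rfl⟩ := hv
    exact ⟨V, hV, fun q => rfl⟩
  obtain ⟨pat, hpat⟩ : ∃ pat : Fin r → (Fin (k' + 1) → ℕ) → ℕ → Finset (Fin (k' + 1)),
    pat = fun i b N => univ.filter (fun j => (N + b j).Prime ∧ col (N + b j) = i) := ⟨_, rfl⟩
  obtain ⟨G, hG⟩ : ∃ G : ℕ → Finset (Fin (k' + 1) → ℕ), G = fun N =>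
    D.filter (fun a => (∀ j, Q2 (N + a j)) ∧ ∃ i, (i, pat i a N) ∉ S) := ⟨_, rfl⟩
  have hBBadm : ∀ v ∈ BB, v ∈ IJ (Fin (k' + 1) × Fin s) L ∧ Admv v := by
    intro v hv
    obtain ⟨V, hV, h⟩ := hdata v hv
    rw [hVV, mem_filter] at hV
    refine ⟨mem_IJ.2 ⟨fun q => ?_, fun q q' hqq => ?_⟩, fun p hp => ?_⟩
    · rw [h]
      have := (V q.1 q.2).isLt
      omega
    · rw [h, h] at hqq
      have h2 := hV.2.1 _ _ _ _ (Fin.ext hqq)
      exact Prod.ext h2.1 h2.2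
    · obtain ⟨t, ht⟩ := hV.2.2.1 p hp
      exact ⟨t, fun q => by rw [h]; exact ht q.1 q.2⟩
  have key := hE1 L hL1 hLx δ hδ hδ1 False (fun h => h.elim) (EvW Q2 col S) BB hBBadm (by
      intro v hv
      obtain ⟨h1, h2⟩ := hBBadm v hv
      exact hE3 L hL1 hLx v h1 h2 (EvW Q2 col S v) (η / 2) (by positivity)
        (evW_prob Q2 hr hη hek v col S hSno)) (by
      rw [hBBcard]
      exact hB2) G (by
      intro N hN b hb i
      rw [hG] at hb
      simp only at hb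
      rw [mem_filter, hD, mem_filter, Fintype.mem_piFinset] at hb
      exact ⟨(mem_Icc.1 (hb.1.1 i)).2, rgh_of_q2 hx1 ha1 hN (hb.2.1 i)⟩) (by
      intro v hv N _ _ hEvW _
      obtain ⟨hq, i0, hi0⟩ := hEvW
      obtain ⟨V, hV, h⟩ := hdata v hv
      rw [hVV, mem_filter] at hV
      obtain ⟨φ, hφ⟩ : ∃ φ : Fin (k' + 1) → Fin s, ∀ j, Q2 (N + v (j, φ j)) ∧
          (((N + v (j, φ j)).Prime ∧ col (N + v (j, φ j)) = i0) ↔ j ∈ ec col v N i0) := by
        have : ∀ j : Fin (k' + 1), ∃ l : Fin s, Q2 (N + v (j, l)) ∧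
            (((N + v (j, l)).Prime ∧ col (N + v (j, l)) = i0) ↔ j ∈ ec col v N i0) := by
          intro j
          by_cases hj : j ∈ ec col v N i0
          · have hj' := hj
            rw [ec, mem_filter] at hj'
            obtain ⟨-, l, hl⟩ := hj'
            exact ⟨l, Q2_prime _ hl.1, fun _ => hj, fun _ => hl⟩
          · obtain ⟨l, hl⟩ := hq j
            refine ⟨l, hl, fun h => ?_, fun h => absurd h hj⟩
            rw [ec, mem_filter]
            exact ⟨mem_univ _, l, h⟩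
        choose φ hφ using this
        exact ⟨φ, hφ⟩
      refine ⟨fun j => (j, φ j), fun i j hij => ?_, ?_⟩
      · simp only [Prod.mk.injEq] at hij
        exact hij.1
      · rw [hG]
        simp only
        have hRm := hV.2.2.2 φ
        have e1 : (v ∘ fun j => (j, φ j)) = fun i => (V i (φ i) : ℕ) := by
          funext i
          simp only [Function.comp, h]
        rw [mem_filter]
        refine ⟨?_, fun j => (hφ j).1, i0, ?_⟩
        · rw [hD, mem_filter, e1]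
          refine ⟨?_, hRm⟩
          rw [hR] at hRm
          exact hRm.1
        · have h1 : pat i0 (v ∘ fun j => (j, φ j)) N = ec col v N i0 := by
            rw [hpat]
            ext j
            rw [mem_filter]
            simp only [mem_univ, true_and]
            exact (hφ j).2
          rw [h1]
          exact hi0)
  -- upper bound
  have hlX : 0 < Real.log X := by linarith
  have hthr0 : 0 ≤ thr := by
    rw [hthr]
    have : 0 ≤ min 1 ((L : ℝ) / Real.log X) := le_min zero_le_one (by positivity)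
    positivity
  have hTx0 : ∀ N ∈ (Tx x).filter (fun N : ℕ => (N : ℝ) ≤ C / δ * x), N ∈ Icc 1 X := by
    intro N hN
    rw [mem_filter, Tx, mem_Ioc] at hN
    have h1 : C / δ * x = X / 2 := by
      rw [hxd]
      field_simp
    have h2 : (N : ℝ) ≤ X / 2 := by rw [← h1]; exact hN.2
    have h4 : (N : ℝ) ≤ X := by linarith
    have h5 : N ≤ X := by exact_mod_cast h4
    rw [mem_Icc]
    omega
  have hone : ∀ b ∈ D, (((Icc 1 X).filter (fun N => (∀ j, Q2 (N + b j)) ∧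
      ∃ i, (i, pat i b N) ∉ S)).card : ℝ) ≤ r * 2 ^ (k' + 1) * thr := by
    intro b hb
    rw [hD, mem_filter, hR] at hb
    have hSb := hb.2.2.2
    obtain ⟨PE, hPE⟩ : ∃ PE : Finset (Fin r × Finset (Fin (k' + 1))),
      PE = univ.filter (fun q => q ∉ S) := ⟨_, rfl⟩
    have h1 : (Icc 1 X).filter (fun N => (∀ j, Q2 (N + b j)) ∧
        ∃ i, (i, pat i b N) ∉ S) ⊆
        PE.biUnion (fun q => (Icc 1 X).filter (fun N => (∀ j, Q2 (N + b j)) ∧
          ∀ j, ((N + b j).Prime ∧ col (N + b j) = q.1) ↔ j ∈ q.2)) := by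
      intro N hN
      rw [mem_filter] at hN
      obtain ⟨hN1, hN2, i0, hi0⟩ := hN
      rw [mem_biUnion]
      refine ⟨(i0, pat i0 b N), ?_, ?_⟩
      · rw [hPE, mem_filter]
        exact ⟨mem_univ _, hi0⟩
      · rw [mem_filter]
        refine ⟨hN1, hN2, fun j => ?_⟩
        rw [hpat, mem_filter]
        simp
    have h2 := (card_le_card h1).trans card_biUnion_le
    have h3 : (((Icc 1 X).filter (fun N => (∀ j, Q2 (N + b j)) ∧
        ∃ i, (i, pat i b N) ∉ S)).card : ℝ) ≤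
        ∑ q ∈ PE, (cnt col q.1 q.2 b X : ℝ) := by
      have h4 : ((∑ q ∈ PE, ((Icc 1 X).filter (fun N => (∀ j, Q2 (N + b j)) ∧
          ∀ j, ((N + b j).Prime ∧ col (N + b j) = q.1) ↔ j ∈ q.2)).card : ℕ) : ℝ) =
          ∑ q ∈ PE, (cnt col q.1 q.2 b X : ℝ) := by
        rw [Nat.cast_sum]
        rfl
      rw [← h4]
      exact_mod_cast h2
    refine h3.trans ?_
    calc ∑ q ∈ PE, (cnt col q.1 q.2 b X : ℝ) ≤ ∑ _q ∈ PE, thr := by
          apply sum_le_sum
          intro q hq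
          rw [hPE, mem_filter] at hq
          by_contra hlt
          rw [not_le] at hlt
          apply hq.2
          rw [← hSb, att, mem_filter]
          exact ⟨mem_univ _, hlt.le⟩
      _ = PE.card * thr := by rw [sum_const, nsmul_eq_mul]
      _ ≤ _ := by
          apply mul_le_mul_of_nonneg_right _ hthr0
          have h5 : PE.card ≤ r * 2 ^ (k' + 1) := by
            rw [hPE]
            refine (card_filter_le _ _).trans (le_of_eq ?_)
            rw [card_univ, Fintype.card_prod, Fintype.card_fin, Fintype.card_finset,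
              Fintype.card_fin]
          exact_mod_cast h5
  have hup2 : ∑ N ∈ (Tx x).filter (fun N : ℕ => (N : ℝ) ≤ C / δ * x), ((G N).card : ℝ) ≤
      (L : ℝ) ^ (k' + 1) * (r * 2 ^ (k' + 1) * thr) := by
    have h1 : ∑ N ∈ (Tx x).filter (fun N : ℕ => (N : ℝ) ≤ C / δ * x), (G N).card ≤
        ∑ N ∈ Icc 1 X, (G N).card :=
      sum_le_sum_of_subset hTx0
    have h2 : ∑ N ∈ Icc 1 X, (G N).card = ∑ b ∈ D, ((Icc 1 X).filter (fun N =>
        (∀ j, Q2 (N + b j)) ∧ ∃ i, (i, pat i b N) ∉ S)).card := by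
      rw [hG]
      simp only [card_filter]
      rw [sum_comm]
    calc ∑ N ∈ (Tx x).filter (fun N : ℕ => (N : ℝ) ≤ C / δ * x), ((G N).card : ℝ)
        ≤ ((∑ N ∈ Icc 1 X, (G N).card : ℕ) : ℝ) := by
          rw [← Nat.cast_sum]
          exact_mod_cast h1
      _ = ∑ b ∈ D, (((Icc 1 X).filter (fun N => (∀ j, Q2 (N + b j)) ∧
          ∃ i, (i, pat i b N) ∉ S)).card : ℝ) := by
          rw [h2, Nat.cast_sum]
      _ ≤ ∑ _b ∈ D, (r * 2 ^ (k' + 1) * thr) := sum_le_sum hone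
      _ = D.card * (r * 2 ^ (k' + 1) * thr) := by rw [sum_const, nsmul_eq_mul]
      _ ≤ _ := mul_le_mul_of_nonneg_right (by exact_mod_cast hDcard) (by positivity)
  have hkey2 := key.trans hup2
  obtain ⟨μ, hμ⟩ : ∃ μ : ℝ, μ = min 1 ((L : ℝ) / Real.log X) := ⟨_, rfl⟩
  rw [← hμ] at hthr
  have hμ0 : 0 < μ := by
    rw [hμ]
    exact lt_min one_pos (by positivity)
  have hμ1 : μ ≤ 1 := by
    rw [hμ]
    exact min_le_left _ _
  have hmono : (L : ℝ) / Real.log X ≤ L / Real.log x :=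
    div_le_div_of_nonneg_left (by positivity) hq2 hq4
  have h1 : μ ^ K ≤ (min 1 ((L : ℝ) / Real.log x)) ^ ((k' + 1) * s - (k' + 1)) := by
    refine (pow_le_pow_of_le_one hμ0.le hμ1 (show (k' + 1) * s - (k' + 1) ≤ K by omega)).trans ?_
    apply pow_le_pow_left₀ hμ0.le
    rw [hμ]
    exact min_le_min le_rfl hmono
  have h2 : ((L : ℝ) / Real.log X) ^ (k' + 1) ≤ ((L : ℝ) / Real.log x) ^ (k' + 1) :=
    pow_le_pow_left₀ (by positivity) hmono _
  have hδ4 : q ^ 4 * ε ^ K ≤ δ ^ 4 := by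
    rw [hδd, mul_pow, ← pow_mul]
    refine mul_le_mul_of_nonneg_left ?_ (by positivity)
    exact pow_le_pow_of_le_one hε.le hε1 (by omega)
  have hx3 : δ ^ 3 * x = δ ^ 4 * (X / (2 * C)) := by
    rw [hxd]
    ring
  have h3 : c1 * (q ^ 4 * ε ^ K * (X / (2 * C))) * ((L : ℝ) / Real.log X) ^ (k' + 1) * μ ^ K ≤
      c1 * δ ^ 3 * x * ((L : ℝ) / Real.log x) ^ (k' + 1) *
        (min 1 ((L : ℝ) / Real.log x)) ^ ((k' + 1) * s - (k' + 1)) := by
    have e1 : c1 * δ ^ 3 * x = c1 * (δ ^ 4 * (X / (2 * C))) := by rw [mul_assoc, hx3]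
    rw [e1]
    have h8 : c1 * (q ^ 4 * ε ^ K * (X / (2 * C))) ≤ c1 * (δ ^ 4 * (X / (2 * C))) := by
      refine mul_le_mul_of_nonneg_left ?_ hc1.le
      exact mul_le_mul_of_nonneg_right hδ4 (by positivity)
    apply mul_le_mul _ h1 (by positivity) (by positivity)
    exact mul_le_mul h8 h2 (by positivity) (by positivity)
  have h4 := h3.trans hkey2
  rw [hthr] at h4
  have e2 : Real.log X ≠ 0 := hlX.ne'
  have hr0 : (r : ℝ) ≠ 0 := by positivity
  have h5 : c1 * (q ^ 4 * ε ^ K * (X / (2 * C))) * ((L : ℝ) / Real.log X) ^ (k' + 1) * μ ^ K =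
      4 * ((L : ℝ) ^ (k' + 1) * (r * 2 ^ (k' + 1) * (c1 * q ^ 4 / (8 * C * (r * 2 ^ (k' + 1))) *
        (ε * μ) ^ K * (X / Real.log X ^ (k' + 1))))) := by
    rw [div_pow, mul_pow]
    field_simp
    ring
  have h7 : 0 < (L : ℝ) ^ (k' + 1) * (r * 2 ^ (k' + 1) * (c1 * q ^ 4 / (8 * C * (r * 2 ^ (k' + 1))) *
        (ε * μ) ^ K * (X / Real.log X ^ (k' + 1)))) := by positivity
  rw [h5] at h4
  linarith

end Pool.Agent.H61.GQ
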