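import Pool.Agent.H61.UN.Main

/-!
# [H61 GQ MAINV] `main_G` of `H92/UM/MainQ`, uniform in the event and in the density `δ` of the boxes

Same proof as `H92/UM/MainQ`; the event `Ev` (which may depend on the colouring), the lower bound `hob` for the boxes
in `BB` and the density `δ` of `BB` come after `x`, so the constants and the threshold for `x` do not depend on them.
The factor `δ ^ 3` is explicit.
-/

namespace Pool.Agent.H61.GQ

open Finset Filter Pool.Agent.H21.MT Pool.Agent.H92.MM Pool.Agent.H61.UL Pool.Agent.H61.UN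

open Classical in
/-- `main_B` for a general event `Ev` of the boxes and patterns with rough sites, uniform in the event and in `δ` -/
theorem main_V (m s k : ℕ) (hs : 1 ≤ s) (hm : k + 1 ≤ m) (a : ℝ) (ha : 0 < a) (ha1 : a ≤ 1 / 20)
    (A c0 : ℝ) (hc0 : 0 < c0) :
    ∃ c C lam : ℝ, 0 < c ∧ 1 ≤ C ∧ 0 < lam ∧
      ∀ᶠ x : ℝ in atTop, ∀ L : ℕ, 1 ≤ L → (L : ℝ) ≤ Real.log x ^ A → ∀ δ : ℝ, 0 < δ → δ ≤ 1 →
        ∀ cons : Prop, (cons → (L : ℝ) ≤ lam * δ * Real.log x) →
        ∀ (Ev : (Fin m × Fin s → ℕ) → ℕ → Prop) (BB : Finset (Fin m × Fin s → ℕ)),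
          (∀ v ∈ BB, v ∈ IJ (Fin m × Fin s) L ∧ Admv v) →
          (∀ v ∈ BB, c0 * x / Real.log x ^ (m * s) ≤
            ∑ N ∈ (Tx x).filter (fun N => (∀ i, Rgh (x ^ a) (N + v i)) ∧ Ev v N), gw x N) →
          δ * (L : ℝ) ^ (m * s) ≤ BB.card →
        ∀ G : ℕ → Finset (Fin (k + 1) → ℕ),
          (∀ N ∈ Tx x, ∀ r ∈ G N, ∀ i, r i ≤ L ∧ Rgh (x ^ a) (N + r i)) →
          (∀ v ∈ BB, ∀ N ∈ Tx x, (∀ i, Rgh (x ^ a) (N + v i)) → Ev v N →
            (cons → ∀ y ≤ L, (N + y).Prime → ∃ i, v i = y) →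
            ∃ i : Fin (k + 1) → Fin m × Fin s, Function.Injective i ∧ v ∘ i ∈ G N) →
          c * δ ^ 3 * x * ((L : ℝ) / Real.log x) ^ (k + 1) *
              (min 1 ((L : ℝ) / Real.log x)) ^ (m * s - (k + 1)) ≤
            ∑ N ∈ (Tx x).filter (fun N : ℕ => (N : ℝ) ≤ C / δ * x), ((G N).card : ℝ) := by
  have : Nonempty (Fin m × Fin s) := ⟨(⟨0, by omega⟩, ⟨0, by omega⟩)⟩
  have hcard : Fintype.card (Fin m × Fin s) = m * s := by
    rw [Fintype.card_prod, Fintype.card_fin, Fintype.card_fin]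
  have hcardO : Fintype.card (Option (Fin m × Fin s)) = m * s + 1 := by
    rw [Fintype.card_option, hcard]
  obtain ⟨Ct, hCt, htail⟩ := tail (Fin m × Fin s) a ha
  obtain ⟨Co, hCo, htot⟩ := total (Option (Fin m × Fin s)) a ha
  rw [hcard] at htail
  rw [hcardO] at htot
  have hmK : m ≤ m * s := Nat.le_mul_of_pos_right m hs
  have hkK : k + 1 ≤ m * s := hm.trans hmK
  obtain ⟨Cm, hCm, hmom⟩ := mom_pow (m * s) (2 * (m * s) - (k + 1)) (by omega) (by omega) a ha
  generalize hKdef : m * s = K at *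
  have hC1' : (1 : ℝ) ≤ max 1 (4 * Ct / c0) := le_max_left _ _
  have hC2' : 4 * Ct / c0 ≤ max 1 (4 * Ct / c0) := le_max_right _ _
  generalize max 1 (4 * Ct / c0) = C at hC1' hC2'
  have hC0 : 0 < C := by linarith
  have hK0 : (0 : ℝ) < (K : ℝ) ^ (k + 1) := by
    have : (0 : ℝ) < K := by
      have : 0 < K := by omega
      exact_mod_cast this
    positivity
  refine ⟨(c0 / (2 * (K : ℝ) ^ (k + 1))) ^ 2 / (2 * (Cm * C)), C, c0 / (4 * Co),
    by positivity, hC1', by positivity, ?_⟩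
  filter_upwards [htail, htot, hmom, eventually_ge_atTop (4 : ℝ)] with x htail htot hmom hx4
  intro L hL hLA δ hδ hδ1 cons hcons Ev BB hBB hob hBBc G hG1 hG2
  obtain ⟨T, hTdef⟩ : ∃ T : ℝ, T = C / δ := ⟨_, rfl⟩
  rw [← hTdef]
  have hcδ : 0 < c0 * δ := mul_pos hc0 hδ
  have hT1 : (1 : ℝ) ≤ T := by
    rw [hTdef, le_div_iff₀ hδ]
    linarith
  have hT2 : 4 * Ct / (c0 * δ) ≤ T := by
    rw [hTdef, ← div_div]
    exact div_le_div_of_nonneg_right hC2' hδ.le
  have hT0 : 0 < T := by linarith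
  have hc1 : 0 < c0 * δ / (2 * (K : ℝ) ^ (k + 1)) := by positivity
  have hC1 : 0 < Cm * T := by positivity
  have hx0 : 0 < x := by linarith
  have hlog : 0 < Real.log x := Real.log_pos (by linarith)
  have hL0 : (0 : ℝ) < L := by exact_mod_cast hL
  have htail := htail L hL T hT1
  have htot := htot L hL
  have hmom := hmom L hL
  set ρ : ℝ := (L : ℝ) / Real.log x with hρdef
  have hρ : 0 < ρ := div_pos hL0 hlog
  -- the three kinds of pairs
  set P1 : (Fin m × Fin s → ℕ) → ℕ → Prop := fun v N =>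
    T * x < (N : ℝ) ∧ ∀ i, Rgh (x ^ a) (N + v i) with hP1
  set P2 : (Fin m × Fin s → ℕ) → ℕ → Prop := fun v N =>
    cons ∧ (∀ i, Rgh (x ^ a) (N + v i)) ∧ ∃ y ≤ L, (∀ i, v i ≠ y) ∧ Rgh (x ^ a) (N + y) with hP2
  set P3 : (Fin m × Fin s → ℕ) → ℕ → Prop := fun v N =>
    (N : ℝ) ≤ T * x ∧ (∀ i, Rgh (x ^ a) (N + v i)) ∧ Ev v N ∧
      (cons → ∀ y ≤ L, Rgh (x ^ a) (N + y) → ∃ i, v i = y) with hP3
  have key : ∀ v ∈ BB, c0 * x / Real.log x ^ K ≤
      ∑ N ∈ (Tx x).filter (P1 v), gw x N + ∑ N ∈ (Tx x).filter (P2 v), gw x N +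
        ∑ N ∈ (Tx x).filter (P3 v), gw x N := by
    intro v hv
    refine (hob v hv).trans ?_
    rw [sum_filter, sum_filter, sum_filter, sum_filter, ← sum_add_distrib, ← sum_add_distrib]
    refine sum_le_sum fun N _ => ?_
    have hg := (gw_pos x N).le
    by_cases hE : (∀ i, Rgh (x ^ a) (N + v i)) ∧ Ev v N
    · rw [if_pos hE]
      by_cases h1 : P1 v N
      · rw [if_pos h1]
        have : (0 : ℝ) ≤ if P2 v N then gw x N else 0 := by split_ifs <;> linarith
        have : (0 : ℝ) ≤ if P3 v N then gw x N else 0 := by split_ifs <;> linarith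
        linarith
      · by_cases h2 : P2 v N
        · rw [if_neg h1, if_pos h2]
          have : (0 : ℝ) ≤ if P3 v N then gw x N else 0 := by split_ifs <;> linarith
          linarith
        · have h3 : P3 v N := by
            refine ⟨?_, hE.1, hE.2, ?_⟩
            · by_contra hc
              exact h1 ⟨lt_of_not_ge hc, hE.1⟩
            · intro hc y hy hr
              by_contra hne
              push Not at hne
              exact h2 ⟨hc, hE.1, y, hy, hne, hr⟩
          rw [if_neg h1, if_neg h2, if_pos h3]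
          linarith
    · rw [if_neg hE]
      have : (0 : ℝ) ≤ if P1 v N then gw x N else 0 := by split_ifs <;> linarith
      have : (0 : ℝ) ≤ if P2 v N then gw x N else 0 := by split_ifs <;> linarith
      have : (0 : ℝ) ≤ if P3 v N then gw x N else 0 := by split_ifs <;> linarith
      linarith
  have hS0 : c0 * δ * x * ρ ^ K ≤ ∑ v ∈ BB, (∑ N ∈ (Tx x).filter (P1 v), gw x N +
      ∑ N ∈ (Tx x).filter (P2 v), gw x N + ∑ N ∈ (Tx x).filter (P3 v), gw x N) := by
    have h1 : ∑ v ∈ BB, c0 * x / Real.log x ^ K ≤ _ := sum_le_sum key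
    rw [sum_const, nsmul_eq_mul] at h1
    refine le_trans ?_ h1
    have h2 : 0 ≤ c0 * x / Real.log x ^ K := by positivity
    have h3 := mul_le_mul_of_nonneg_right hBBc h2
    refine le_trans (le_of_eq ?_) h3
    rw [hρdef, div_pow]
    field_simp
  rw [sum_add_distrib, sum_add_distrib, main_swap, main_swap, main_swap] at hS0
  -- far part
  have hF1 : ∑ N ∈ Tx x, gw x N * ((BB.filter (fun v => P1 v N)).card : ℝ) ≤
      c0 * δ / 4 * x * ρ ^ K := by
    have h1 : ∑ N ∈ Tx x, gw x N * ((BB.filter (fun v => P1 v N)).card : ℝ) ≤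
        ∑ N ∈ (Tx x).filter (fun N : ℕ => T * x < (N : ℝ)),
          gw x N * ((RJ (Fin m × Fin s) x a L N).card : ℝ) := by
      rw [sum_filter]
      refine sum_le_sum fun N _ => ?_
      by_cases hN : T * x < (N : ℝ)
      · rw [if_pos hN]
        refine mul_le_mul_of_nonneg_left ?_ (gw_pos x N).le
        have : (BB.filter (fun v => P1 v N)).card ≤ (RJ (Fin m × Fin s) x a L N).card := by
          refine card_le_card fun v hv => ?_
          rw [mem_filter] at hv
          rw [mem_RJ]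
          exact ⟨mem_IJ.1 (hBB v hv.1).1, hv.2.2⟩
        exact_mod_cast this
      · rw [if_neg hN]
        have : BB.filter (fun v => P1 v N) = ∅ := by
          rw [filter_eq_empty_iff]
          intro v _ hv
          exact hN hv.1
        rw [this, card_empty, Nat.cast_zero, mul_zero]
    refine h1.trans (htail.trans ?_)
    have h2 : Ct / T ≤ c0 * δ / 4 := by
      rw [div_le_iff₀ hcδ] at hT2
      rw [div_le_iff₀ hT0]
      linarith
    have h3 : 0 ≤ x * ρ ^ K := by positivity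
    have h4 := mul_le_mul_of_nonneg_right h2 h3
    linarith [h4]
  -- pairs with one more rough site
  have hF2 : ∑ N ∈ Tx x, gw x N * ((BB.filter (fun v => P2 v N)).card : ℝ) ≤
      c0 * δ / 4 * x * ρ ^ K := by
    by_cases hc : cons
    · have h1 : ∑ N ∈ Tx x, gw x N * ((BB.filter (fun v => P2 v N)).card : ℝ) ≤
          ∑ N ∈ Tx x, gw x N * ((RJ (Option (Fin m × Fin s)) x a L N).card : ℝ) := by
        refine sum_le_sum fun N _ => ?_
        refine mul_le_mul_of_nonneg_left ?_ (gw_pos x N).le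
        have := main_extra x a L N (BB.filter (fun v => P2 v N)) (by
          intro v hv
          rw [mem_filter] at hv
          exact ⟨(hBB v hv.1).1, hv.2.2.1, hv.2.2.2⟩)
        exact_mod_cast this
      refine h1.trans (htot.trans ?_)
      have h2 : ρ ≤ c0 * δ / (4 * Co) := by
        rw [hρdef, div_le_iff₀ hlog]
        refine (hcons hc).trans (le_of_eq ?_)
        field_simp
      have h3 : Co * ρ ≤ c0 * δ / 4 := by
        rw [le_div_iff₀ (by positivity)] at h2
        linarith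
      have h4 : 0 ≤ x * ρ ^ K := by positivity
      have h5 := mul_le_mul_of_nonneg_right h3 h4
      rw [pow_succ]
      linarith [h5]
    · have h1 : ∀ N, BB.filter (fun v => P2 v N) = ∅ := by
        intro N
        rw [filter_eq_empty_iff]
        intro v _ hv
        exact hc hv.1
      have h2 : ∑ N ∈ Tx x, gw x N * ((BB.filter (fun v => P2 v N)).card : ℝ) = 0 := by
        refine sum_eq_zero fun N _ => ?_
        rw [h1 N, card_empty, Nat.cast_zero, mul_zero]
      rw [h2]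
      positivity
  -- the main part
  set T0 : Finset ℕ := (Tx x).filter (fun N : ℕ => (N : ℝ) ≤ T * x ∧ K ≤ (RS x a L N).card) with hT0def
  have hF3 : ∑ N ∈ Tx x, gw x N * ((BB.filter (fun v => P3 v N)).card : ℝ) ≤
      (K : ℝ) ^ (k + 1) * ∑ N ∈ T0, ((G N).card : ℝ) * ((RS x a L N).card : ℝ) ^ (K - (k + 1)) := by
    rw [mul_sum, hT0def, sum_filter]
    refine sum_le_sum fun N hN => ?_
    by_cases hNT : (N : ℝ) ≤ T * x ∧ K ≤ (RS x a L N).card
    · rw [if_pos hNT]
      have h1 := box_count k (RS x a L N) (BB.filter (fun v => P3 v N)) (G N) (by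
        intro v hv
        rw [mem_filter] at hv
        obtain ⟨hv1, -, hv2, hv3, hv4⟩ := hv
        refine ⟨fun i => ?_, ?_⟩
        · rw [mem_RS]
          exact ⟨(mem_IJ.1 (hBB v hv1).1).1 i, hv2 i⟩
        · refine hG2 v hv1 N hN hv2 hv3 ?_
          intro hc y hy hp
          exact hv4 hc y hy (main_rough (by linarith) ha1 hN hp))
      rw [hcard] at h1
      have h2 : ((BB.filter (fun v => P3 v N)).card : ℝ) ≤
          (K : ℝ) ^ (k + 1) * (((G N).card : ℝ) * ((RS x a L N).card : ℝ) ^ (K - (k + 1))) := by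
        exact_mod_cast h1
      have h3 : gw x N * ((BB.filter (fun v => P3 v N)).card : ℝ) ≤
          1 * ((BB.filter (fun v => P3 v N)).card : ℝ) :=
        mul_le_mul_of_nonneg_right (gw_le_one x N) (Nat.cast_nonneg _)
      linarith
    · rw [if_neg hNT]
      have : BB.filter (fun v => P3 v N) = ∅ := by
        rw [filter_eq_empty_iff]
        intro v hv hP
        refine hNT ⟨hP.1, ?_⟩
        have h1 : (univ.image v).card = K := by
          rw [card_image_of_injective _ (mem_IJ.1 (hBB v hv).1).2, card_univ, hcard]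
        rw [← h1]
        refine card_le_card fun y hy => ?_
        rw [mem_image] at hy
        obtain ⟨i, -, rfl⟩ := hy
        rw [mem_RS]
        exact ⟨(mem_IJ.1 (hBB v hv).1).1 i, hP.2.1 i⟩
      rw [this, card_empty, Nat.cast_zero, mul_zero]
  have hM : c0 * δ / (2 * (K : ℝ) ^ (k + 1)) * x * ρ ^ K ≤
      ∑ N ∈ T0, ((G N).card : ℝ) * ((RS x a L N).card : ℝ) ^ (K - (k + 1)) := by
    have h1 : c0 * δ / 2 * x * ρ ^ K ≤ (K : ℝ) ^ (k + 1) *
        ∑ N ∈ T0, ((G N).card : ℝ) * ((RS x a L N).card : ℝ) ^ (K - (k + 1)) := by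
      linarith
    have h2 : c0 * δ / (2 * (K : ℝ) ^ (k + 1)) * x * ρ ^ K =
        (c0 * δ / 2 * x * ρ ^ K) / (K : ℝ) ^ (k + 1) := by
      field_simp
    rw [h2, div_le_iff₀ hK0]
    linarith
  have hZm : ∑ N ∈ T0, ((RS x a L N).card : ℝ) ^ (2 * K - (k + 1)) ≤
      Cm * T * x * (ρ ^ K + ρ ^ (2 * K - (k + 1))) := by
    have hsq : Real.sqrt x ≤ (⌊T * x⌋₊ : ℝ) := by
      have h1 : Real.sqrt x ≤ x / 2 := by
        rw [Real.sqrt_le_left (by linarith)]
        nlinarith
      have h2 : T * x < (⌊T * x⌋₊ : ℝ) + 1 := Nat.lt_floor_add_one _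
      have h3 : x ≤ T * x := by nlinarith
      linarith
    have h1 := hmom ⌊T * x⌋₊ hsq
    have h2 : ∑ N ∈ T0, ((RS x a L N).card : ℝ) ^ (2 * K - (k + 1)) ≤
        ∑ N ∈ (Ioc 0 ⌊T * x⌋₊).filter (fun N => K ≤ (RS x a L N).card),
          ((RS x a L N).card : ℝ) ^ (2 * K - (k + 1)) := by
      refine sum_le_sum_of_subset_of_nonneg ?_ (fun N _ _ => by positivity)
      intro N hN
      rw [hT0def, mem_filter] at hN
      rw [mem_filter, mem_Ioc]
      have h3 : ⌊Real.sqrt x⌋₊ < N := by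
        have h4 := hN.1
        unfold Tx at h4
        exact (mem_Ioc.1 h4).1
      exact ⟨⟨by omega, Nat.le_floor hN.2.1⟩, hN.2.2⟩
    refine h2.trans (h1.trans ?_)
    have h4 : (⌊T * x⌋₊ : ℝ) ≤ T * x := Nat.floor_le (by positivity)
    have h5 : 0 ≤ Cm * (ρ ^ K + ρ ^ (2 * K - (k + 1))) := by positivity
    have h6 := mul_le_mul_of_nonneg_left h4 h5
    linarith
  have hfin := cs_fin K k hkK T0 (fun N => ((G N).card : ℝ)) (fun N => ((RS x a L N).card : ℝ))
    (fun N _ => Nat.cast_nonneg _) (fun N _ => Nat.cast_nonneg _) (by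
      intro N hN
      have hNT : N ∈ Tx x := by
        rw [hT0def, mem_filter] at hN
        exact hN.1
      have h1 : G N ⊆ Fintype.piFinset (fun _ : Fin (k + 1) => RS x a L N) := by
        intro r hr
        rw [Fintype.mem_piFinset]
        intro i
        rw [mem_RS]
        obtain ⟨h2, h3⟩ := hG1 N hNT r hr i
        exact ⟨h2, h3⟩
      have h2 := card_le_card h1
      rw [Fintype.card_piFinset, prod_const, card_univ, Fintype.card_fin] at h2
      exact_mod_cast h2) x ρ (c0 * δ / (2 * (K : ℝ) ^ (k + 1))) (Cm * T) hx0 hρ hc1 hC1 hM hZm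
  have hcc : (c0 / (2 * (K : ℝ) ^ (k + 1))) ^ 2 / (2 * (Cm * C)) * δ ^ 3 =
      (c0 * δ / (2 * (K : ℝ) ^ (k + 1))) ^ 2 / (2 * (Cm * T)) := by
    rw [hTdef]
    field_simp
  rw [hcc]
  refine hfin.trans ?_
  refine sum_le_sum_of_subset_of_nonneg ?_ (fun N _ _ => Nat.cast_nonneg _)
  intro N hN
  rw [hT0def, mem_filter] at hN
  rw [mem_filter]
  exact ⟨hN.1, hN.2.1⟩

end Pool.Agent.H61.GQ
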