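import Pool.Agent.H61.UN.Ob
import Pool.Agent.H92.UM.BlkQ

/-!
# [H61 GQ OBG] One box, general event (MP_8923e7_nt, AlmostAllTuples with weights)

As `H92/UM/ObQ`. If the event `Ev` has probability at least `p` for EVERY probability `μ` on `Tx x` for which every cell
contains a prime with probability at least `13/50 - e` and a number with the property `Q` with probability at least
`1 - e`, then the `N` with all `N + v i` rough and `Ev N` have weight at least `c p x / (log x)^(ms)`.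
-/

namespace Pool.Agent.H61.GQ

open Finset Filter Pool.Agent.H21.MT Pool.Agent.H92.MM Pool.Agent.H61.UL Pool.Agent.H61.UN
  Pool.Agent.H92.UM

open Classical in
/-- `Ev` has probability at least `p` for every probability with the local properties -/
def EvProb (Q : ℕ → Prop) (e : ℝ) (x : ℝ) {m s : ℕ} (v : Fin m × Fin s → ℕ) (Ev : ℕ → Prop) (p : ℝ) : Prop :=
  ∀ μ : ℕ → ℝ, (∀ N, 0 ≤ μ N) → ∑ N ∈ Tx x, μ N = 1 →
    (∀ j : Fin m, 13 / 50 - e ≤
      ∑ N ∈ (Tx x).filter (fun N => ∃ l : Fin s, (N + v (j, l)).Prime), μ N) →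
    (∀ j : Fin m, 1 - e ≤
      ∑ N ∈ (Tx x).filter (fun N => ∃ l : Fin s, Q (N + v (j, l))), μ N) →
    p ≤ ∑ N ∈ (Tx x).filter Ev, μ N

open Classical in
private theorem ob_oneG {m s : ℕ} {C2 nmv p : ℝ}
    (hC2 : 0 < C2) (hnm : 0 < nmv) {x a : ℝ} (v : Fin m × Fin s → ℕ) {W b : ℕ} (μ : ℕ → ℝ)
    (h1 : ∀ N, μ N ≠ 0 → N % W = b % W ∧ ∀ i, Rgh (x ^ a) (N + v i))
    (h2 : ∀ N, μ N ≤ C2 * gw x N / nmv) (Ev : ℕ → Prop)
    (h6 : p ≤ ∑ N ∈ (Tx x).filter Ev, μ N) :
    1 / C2 * p * nmv ≤ ∑ N ∈ (Tx x).filter (fun N => (∀ i, Rgh (x ^ a) (N + v i)) ∧ Ev N),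
      if N % W = b % W then gw x N else 0 := by
  have hfin : ∑ N ∈ (Tx x).filter Ev, μ N ≤ C2 / nmv *
      ∑ N ∈ (Tx x).filter (fun N => (∀ i, Rgh (x ^ a) (N + v i)) ∧ Ev N),
        if N % W = b % W then gw x N else 0 := by
    rw [mul_sum]
    have h7 : ∑ N ∈ (Tx x).filter Ev, μ N =
        ∑ N ∈ (Tx x).filter (fun N => (∀ i, Rgh (x ^ a) (N + v i)) ∧ Ev N), μ N := by
      symm
      refine sum_subset ?_ ?_
      · intro N hN
        rw [mem_filter] at hN
        rw [mem_filter]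
        exact ⟨hN.1, hN.2.2⟩
      · intro N hN hN'
        rw [mem_filter] at hN
        by_contra hne
        apply hN'
        rw [mem_filter]
        exact ⟨hN.1, (h1 N hne).2, hN.2⟩
    rw [h7]
    refine sum_le_sum fun N _ => ?_
    by_cases hne : μ N = 0
    · rw [hne]
      refine mul_nonneg (by positivity) ?_
      split_ifs
      · exact (Real.exp_pos _).le
      · exact le_rfl
    · rw [if_pos (h1 N hne).1]
      calc μ N ≤ C2 * gw x N / nmv := h2 N
        _ = C2 / nmv * gw x N := by ring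
  have h8 := h6.trans hfin
  rw [div_mul_eq_mul_div, le_div_iff₀ hnm] at h8
  rw [one_div, mul_assoc, inv_mul_le_iff₀ hC2]
  exact h8

open Classical in
theorem one_boxG (Q : ℕ → Prop) (hU : BlkQ Q) (e : ℝ) (he : 0 < e) (m : ℕ) (hm : 1 ≤ m) :
    ∃ (s : ℕ) (a : ℝ), 1 ≤ s ∧ 0 < a ∧ a ≤ 1 / 20 ∧ ∀ A : ℝ, 0 < A → ∃ c : ℝ, 0 < c ∧
      ∀ᶠ x : ℝ in atTop, ∀ L : ℕ, 1 ≤ L → (L : ℝ) ≤ Real.log x ^ A →
        ∀ v ∈ IJ (Fin m × Fin s) L, Admv v → ∀ (Ev : ℕ → Prop) (p : ℝ), 0 ≤ p →
          EvProb Q e x v Ev p →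
          c * p * x / Real.log x ^ (m * s) ≤
            ∑ N ∈ (Tx x).filter (fun N => (∀ i, Rgh (x ^ a) (N + v i)) ∧ Ev N), gw x N := by
  have hm0 : (0 : ℝ) < m := by exact_mod_cast hm
  obtain ⟨s, a, C2, hs, ha, ha1, hC2, hB⟩ := hU e he m hm
  refine ⟨s, a, hs, ha, ha1, ?_⟩
  intro A hA
  have hcard : Fintype.card (Fin m × Fin s) = m * s := by
    rw [Fintype.card_prod, Fintype.card_fin, Fintype.card_fin]
  have : Nonempty (Fin m × Fin s) := ⟨(⟨0, by omega⟩, ⟨0, by omega⟩)⟩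
  obtain ⟨A', hA'⟩ : ∃ A' : ℝ, A' = (Fintype.card (Fin m × Fin s) : ℝ) ^ 2 * A + 1 := ⟨_, rfl⟩
  have hA'0 : 0 < A' := by rw [hA']; positivity
  obtain ⟨w0, hw0⟩ := hB A' hA'0
  obtain ⟨w, hw⟩ : ∃ w : ℕ, w = max w0 (m * s) := ⟨_, rfl⟩
  have hw0w : w0 ≤ w := by rw [hw]; exact le_max_left _ _
  have hKw : m * s ≤ w := by rw [hw]; exact le_max_right _ _
  obtain ⟨c, hc, hnms⟩ := nm_sum (Fin m × Fin s) a ha (by linarith)
  refine ⟨1 / C2 * c, by positivity, ?_⟩
  filter_upwards [hw0 w hw0w, okh (Fin m × Fin s) A hA w, nmu_pos (m * s) w hKw a,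
    hnms A' w (by rw [hcard]; exact hKw)] with x hx1 hx2 hx3 hx4 L hL hLx v hv hadm Ev p hp hEv
  obtain ⟨hWle, hOk⟩ := hx2 L hL hLx v hv
  rw [← hA'] at hWle hOk
  obtain ⟨W, hW⟩ : ∃ W, W = WHn w (dd v) := ⟨_, rfl⟩
  have hWpos : 0 < W := by rw [hW]; exact wh_pos _ _
  have hWsq : Squarefree W := by rw [hW]; exact wh_sq _ _
  have hWpr : primorial w ∣ W := by rw [hW]; exact wh_prim _ _
  rw [← hW] at hWle hOk
  have hnm : 0 < nm x a W (m * s) := hx3 W hWpos hWpr
  have hsum := hx4 W hWsq hWpr hWle v hadm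
  rw [hcard] at hsum
  have hvinj : Function.Injective v := (mem_IJ.1 hv).2
  have hbU : (univ : Finset (Fin m)).biUnion (fun j => univ.image (fun l : Fin s => v (j, l))) =
      univ.image v := by
    ext y
    simp only [mem_biUnion, mem_image, mem_univ, true_and, Prod.exists]
  have hone : ∀ b ∈ GC W v, 1 / C2 * p * nm x a W (m * s) ≤
      ∑ N ∈ (Tx x).filter (fun N => (∀ i, Rgh (x ^ a) (N + v i)) ∧ Ev N),
        if N % W = b then gw x N else 0 := by
    intro b hb
    have hbW : b < W := (mem_GC.1 hb).1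
    obtain ⟨μ, h0, h1, h2, h3, h4, h7⟩ := hx1 (fun j => univ.image (fun l : Fin s => v (j, l))) W b
      (by
        intro i j hij
        rw [disjoint_left]
        intro y hy hy'
        rw [mem_image] at hy hy'
        obtain ⟨l, _, hl⟩ := hy
        obtain ⟨l', _, hl'⟩ := hy'
        have := hvinj (hl.trans hl'.symm)
        exact hij (Prod.ext_iff.1 this).1)
      (by
        intro j
        rw [card_image_of_injective, card_univ, Fintype.card_fin]
        intro l l' hll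
        exact (Prod.ext_iff.1 (hvinj hll)).2)
      (by
        rw [hbU]
        exact hOk b hb)
    have hres := ob_oneG (a := a) (p := p) hC2 hnm v (b := b) μ (by
        intro N hN
        obtain ⟨_, h5, h6⟩ := h1 N hN
        refine ⟨h5, fun i p hp hpN => h6 (v i) ?_ p hp hpN⟩
        rw [hbU]
        exact mem_image_of_mem v (mem_univ i)) h2 Ev (by
        refine hEv μ h0 h3 ?_ ?_
        · intro j
          refine (h4 j).trans (le_of_eq ?_)
          congr 1
          refine filter_congr fun N _ => ?_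
          simp only [mem_image, mem_univ, true_and, exists_exists_eq_and]
        · intro j
          refine (h7 j).trans (le_of_eq ?_)
          congr 1
          refine filter_congr fun N _ => ?_
          simp only [mem_image, mem_univ, true_and, exists_exists_eq_and])
    rw [Nat.mod_eq_of_lt hbW] at hres
    exact hres
  calc 1 / C2 * c * p * x / Real.log x ^ (m * s) = 1 / C2 * p * (c * x / Real.log x ^ (m * s)) := by ring
    _ ≤ 1 / C2 * p * ∑ _b ∈ GC W v, nm x a W (m * s) := by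
        refine mul_le_mul_of_nonneg_left hsum (by positivity)
    _ = ∑ _b ∈ GC W v, 1 / C2 * p * nm x a W (m * s) := by rw [mul_sum]
    _ ≤ ∑ b ∈ GC W v, ∑ N ∈ (Tx x).filter (fun N => (∀ i, Rgh (x ^ a) (N + v i)) ∧ Ev N),
          (if N % W = b then gw x N else 0) :=
        sum_le_sum hone
    _ ≤ _ := by
        rw [sum_comm]
        refine sum_le_sum fun N _ => ?_
        rw [sum_ite_eq]
        split_ifs
        · exact le_rfl
        · exact (Real.exp_pos _).le

end Pool.Agent.H61.GQ
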